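import Pool.Agent.X214.AF.Seq

/-!
# Contraction, sectional expansion and domination in the limit
-/

set_option autoImplicit false

open scoped Manifold ContDiff Topology Bundle
open Set Filter Bundle

namespace Pool.Agent.X214.AF

open Pool.Agent.X214.AM

lemma gram_two {W : Type*} [AddCommGroup W] [Module ℝ W] (A : LinearMap.BilinForm ℝ W)
    (w : Fin 2 → W) : gram A w = A (w 0) (w 0) * A (w 1) (w 1) - A (w 0) (w 1) * A (w 1) (w 0) := by
  unfold gram
  rw [Matrix.det_fin_two]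
  rfl

variable {E : Type} [NormedAddCommGroup E] [NormedSpace ℝ E] [FiniteDimensional ℝ E]
  {M : Type} [TopologicalSpace M] [ChartedSpace E M] [IsManifold 𝓘(ℝ, E) ∞ M]
  {Λ : Set M} {G F : ∀ x : M, Submodule ℝ (TangentSpace 𝓘(ℝ, E) x)} {σ : ℝ → Λ → Λ}
  (φ : Coc Λ G σ) (ψ : Coc Λ F σ)

/-- The three inequalities at time `t`, for squares of lengths. -/
def Ad (a t : ℝ) (A : Fam Λ G) (B : Fam Λ F) : Prop :=
  (∀ (x : Λ) (v : G x), pul φ t A x v v ≤ Real.exp (-(2 * a * t)) * A x v v) ∧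
  (∀ (x : Λ) (w : Fin 2 → F x), Real.exp (2 * a * t) * gram (B x) w ≤ gram (pul ψ t B x) w) ∧
  (∀ (x : Λ) (v : G x) (w : F x),
    pul φ t A x v v * B x w w ≤ Real.exp (-(2 * a * t)) * A x v v * pul ψ t B x w w)

variable {φ ψ}

lemma ad_zero (a : ℝ) (A : Fam Λ G) (B : Fam Λ F) : Ad φ ψ a 0 A B := by
  refine ⟨fun x v => ?_, fun x w => ?_, fun x v w => ?_⟩
  · rw [pul_zero]; simp
  · rw [pul_zero]; simp
  · rw [pul_zero, pul_zero]; simp

lemma ad_add {a s t : ℝ} {A : Fam Λ G} {B : Fam Λ F} (hA : ∀ x, PD (A x)) (hB : ∀ x, PD (B x))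
    (hs : Ad φ ψ a s A B) (ht : Ad φ ψ a t A B) : Ad φ ψ a (s + t) A B := by
  have e1 : Real.exp (-(2 * a * (s + t))) = Real.exp (-(2 * a * s)) * Real.exp (-(2 * a * t)) := by
    rw [← Real.exp_add]
    congr 1
    ring
  have e2 : Real.exp (2 * a * (s + t)) = Real.exp (2 * a * s) * Real.exp (2 * a * t) := by
    rw [← Real.exp_add]
    congr 1
    ring
  refine ⟨fun x v => ?_, fun x w => ?_, fun x v w => ?_⟩
  · rw [pul_add, e1]
    have h1 := hs.1 (σ t x) (φ.L t x v)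
    have h2 := ht.1 x v
    calc pul φ t (pul φ s A) x v v ≤ Real.exp (-(2 * a * s)) * pul φ t A x v v := h1
      _ ≤ Real.exp (-(2 * a * s)) * (Real.exp (-(2 * a * t)) * A x v v) :=
          mul_le_mul_of_nonneg_left h2 (Real.exp_pos _).le
      _ = _ := by ring
  · rw [pul_add, e2]
    have h1 := hs.2.1 (σ t x) fun i => ψ.L t x (w i)
    have h2 := ht.2.1 x w
    calc Real.exp (2 * a * s) * Real.exp (2 * a * t) * gram (B x) w
        = Real.exp (2 * a * s) * (Real.exp (2 * a * t) * gram (B x) w) := by ring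
      _ ≤ Real.exp (2 * a * s) * gram (pul ψ t B x) w :=
          mul_le_mul_of_nonneg_left h2 (Real.exp_pos _).le
      _ ≤ gram (pul ψ t (pul ψ s B) x) w := h1
  · by_cases hw : w = 0
    · rw [hw]; simp
    rw [pul_add, pul_add, e1]
    have h1 : pul φ t (pul φ s A) x v v * pul ψ t B x w w ≤ Real.exp (-(2 * a * s)) *
        pul φ t A x v v * pul ψ t (pul ψ s B) x w w := hs.2.2 (σ t x) (φ.L t x v) (ψ.L t x w)
    have h2 := ht.2.2 x v w
    have hb : 0 < pul ψ t B x w w := (pul_pd ψ hB t x).2 w hw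
    have hb0 : 0 < B x w w := (hB x).2 w hw
    have hbs : 0 < pul ψ t (pul ψ s B) x w w := (pul_pd ψ (pul_pd ψ hB s) t x).2 w hw
    have key : (pul φ t (pul φ s A) x v v * B x w w) * pul ψ t B x w w ≤
        (Real.exp (-(2 * a * s)) * Real.exp (-(2 * a * t)) * A x v v *
          pul ψ t (pul ψ s B) x w w) * pul ψ t B x w w := by
      calc (pul φ t (pul φ s A) x v v * B x w w) * pul ψ t B x w w
          = (pul φ t (pul φ s A) x v v * pul ψ t B x w w) * B x w w := by ring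
        _ ≤ (Real.exp (-(2 * a * s)) * pul φ t A x v v * pul ψ t (pul ψ s B) x w w) * B x w w :=
            mul_le_mul_of_nonneg_right h1 hb0.le
        _ = (Real.exp (-(2 * a * s)) * pul ψ t (pul ψ s B) x w w) *
              (pul φ t A x v v * B x w w) := by ring
        _ ≤ (Real.exp (-(2 * a * s)) * pul ψ t (pul ψ s B) x w w) *
              (Real.exp (-(2 * a * t)) * A x v v * pul ψ t B x w w) :=
            mul_le_mul_of_nonneg_left h2 (mul_nonneg (Real.exp_pos _).le hbs.le)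
        _ = _ := by ring
    exact le_of_mul_le_mul_right key hb

lemma ad_mul {a s : ℝ} {A : Fam Λ G} {B : Fam Λ F} (hA : ∀ x, PD (A x)) (hB : ∀ x, PD (B x))
    (hs : Ad φ ψ a s A B) (n : ℕ) : Ad φ ψ a (n * s) A B := by
  induction n with
  | zero =>
    rw [Nat.cast_zero, zero_mul]
    exact ad_zero a A B
  | succ n ih =>
    have := ad_add hA hB ih hs
    have e : (n : ℝ) * s + s = ((n + 1 : ℕ) : ℝ) * s := by push_cast; ring
    rwa [e] at this

/-- Halving the time. -/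
lemma ad_half {r r' : ℕ} (hr : ∀ x : Λ, Module.finrank ℝ (G x) = r)
    (hr' : ∀ x : Λ, Module.finrank ℝ (F x) = r') {a s : ℝ} {A X : Fam Λ G} {B Y : Fam Λ F}
    (hA : ∀ x, PD (A x)) (hB : ∀ x, PD (B x))
    (hX : ∀ x, IsMean r (A x) (pul φ s A x) (X x))
    (hY : ∀ x, IsMean r' (B x) (pul ψ s B x) (Y x)) (h : Ad φ ψ a (s + s) A B) :
    Ad φ ψ a s X Y := by
  have e1 : Real.exp (-(2 * a * (s + s))) = Real.exp (-(2 * a * s)) ^ 2 := by
    rw [← Real.exp_nat_mul]
    congr 1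
    push_cast
    ring
  have e2 : Real.exp (2 * a * (s + s)) = Real.exp (2 * a * s) ^ 2 := by
    rw [← Real.exp_nat_mul]
    congr 1
    push_cast
    ring
  unfold Ad at h
  rw [pul_add, pul_add, e1, e2] at h
  refine ⟨fun x v => ?_, fun x w => ?_, fun x v w => ?_⟩
  · exact contr (hr x) (hX x) (pul_mean φ hX s x) (hA x) (Real.exp_pos _) (h.1 x) v
  · exact key (hr' x) (hY x) (pul_mean ψ hY s x) (pul_pd ψ (pul_pd ψ hB s) s x) (Real.exp_pos _)
      (h.2.1 x) w
  · exact domin (hr x) (hr' x) (hX x) (pul_mean φ hX s x) (hY x) (pul_mean ψ hY s x) (hA x) (hB x)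
      (pul_pd ψ (pul_pd ψ hB s) s x) (Real.exp_pos _) (h.2.2 x) v w

/-- Passing to the limit. -/
lemma ad_lim {a t : ℝ} {S : ℕ → Fam Λ G} {R : ℕ → Fam Λ F} {A : Fam Λ G} {B : Fam Λ F}
    (hS : ∀ x v w, Tendsto (fun j => S j x v w) atTop (𝓝 (A x v w)))
    (hR : ∀ x v w, Tendsto (fun j => R j x v w) atTop (𝓝 (B x v w)))
    (h : ∀ᶠ j in atTop, Ad φ ψ a t (S j) (R j)) : Ad φ ψ a t A B := by
  refine ⟨fun x v => ?_, fun x w => ?_, fun x v w => ?_⟩
  · exact le_of_tendsto_of_tendsto (hS (σ t x) (φ.L t x v) (φ.L t x v))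
      ((hS x v v).const_mul _) (h.mono fun j hj => hj.1 x v)
  · have h1 : ∀ (x : Λ) (w : Fin 2 → F x),
        Tendsto (fun j => gram (R j x) w) atTop (𝓝 (gram (B x) w)) := by
      intro x w
      simp only [gram_two]
      exact ((hR x _ _).mul (hR x _ _)).sub ((hR x _ _).mul (hR x _ _))
    exact le_of_tendsto_of_tendsto ((h1 x w).const_mul _) (h1 (σ t x) fun i => ψ.L t x (w i))
      (h.mono fun j hj => hj.2.1 x w)
  · exact le_of_tendsto_of_tendsto ((hS (σ t x) (φ.L t x v) (φ.L t x v)).mul (hR x w w))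
      (((hS x v v).const_mul _).mul (hR (σ t x) (ψ.L t x w) (ψ.L t x w)))
      (h.mono fun j hj => hj.2.2 x v w)

/-- Passing to the limit in the time. -/
lemma ad_time {a t : ℝ} {A : Fam Λ G} {B : Fam Λ F} (hA : CtsF A) (hB : CtsF B) {τ : ℕ → ℝ}
    (hτ : Tendsto τ atTop (𝓝 t)) (h : ∀ n, Ad φ ψ a (τ n) A B) : Ad φ ψ a t A B := by
  have c1 : ∀ x v w, Tendsto (fun n => pul φ (τ n) A x v w) atTop (𝓝 (pul φ t A x v w)) :=
    fun x v w => ((continuous_pul φ hA x v w).tendsto t).comp hτ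
  have c2 : ∀ x v w, Tendsto (fun n => pul ψ (τ n) B x v w) atTop (𝓝 (pul ψ t B x v w)) :=
    fun x v w => ((continuous_pul ψ hB x v w).tendsto t).comp hτ
  have c3 : Tendsto (fun n => Real.exp (-(2 * a * τ n))) atTop (𝓝 (Real.exp (-(2 * a * t)))) :=
    (Real.continuous_exp.tendsto _).comp (hτ.const_mul (2 * a)).neg
  have c4 : Tendsto (fun n => Real.exp (2 * a * τ n)) atTop (𝓝 (Real.exp (2 * a * t))) :=
    (Real.continuous_exp.tendsto _).comp (hτ.const_mul (2 * a))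
  refine ⟨fun x v => ?_, fun x w => ?_, fun x v w => ?_⟩
  · exact le_of_tendsto_of_tendsto (c1 x v v) (c3.mul_const _) (Eventually.of_forall fun n =>
      (h n).1 x v)
  · have h1 : Tendsto (fun n => gram (pul ψ (τ n) B x) w) atTop (𝓝 (gram (pul ψ t B x) w)) := by
      simp only [gram_two]
      exact ((c2 x _ _).mul (c2 x _ _)).sub ((c2 x _ _).mul (c2 x _ _))
    exact le_of_tendsto_of_tendsto (c4.mul_const _) h1 (Eventually.of_forall fun n =>
      (h n).2.1 x w)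
  · exact le_of_tendsto_of_tendsto ((c1 x v v).mul_const _) ((c3.mul_const _).mul (c2 x w w))
      (Eventually.of_forall fun n => (h n).2.2 x v w)

variable (g : CMetric E M)

include g in
/-- **Adapted families.** -/
theorem exists_adapted {r r' : ℕ} (hG : IsClosed (tot Λ G)) (hF : IsClosed (tot Λ F))
    (hr : ∀ x : Λ, Module.finrank ℝ (G x) = r) (hr' : ∀ x : Λ, Module.finrank ℝ (F x) = r')
    {A : Fam Λ G} {B : Fam Λ F} (hA : ∀ x, PD (A x)) (hB : ∀ x, PD (B x)) (hAc : CtsF A)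
    (hBc : CtsF B) {K : ℝ} (hAL : Lip φ K A) (hBL : Lip ψ K B) {a T : ℝ} (hT : 0 < T)
    (h : Ad φ ψ a T A B) :
    ∃ (A' : Fam Λ G) (B' : Fam Λ F), (∀ x, PD (A' x)) ∧ (∀ x, PD (B' x)) ∧ CtsF A' ∧ CtsF B' ∧
      ∀ t : ℝ, 0 ≤ t → Ad φ ψ a t A' B' := by
  obtain ⟨S, A', hS0, hSM, hSP, hAP, hA'c, hSl⟩ := exists_limit φ g hG hr hA hAc hAL hT
  obtain ⟨R, B', hR0, hRM, hRP, hBP, hB'c, hRl⟩ := exists_limit ψ g hF hr' hB hBc hBL hT
  refine ⟨A', B', hAP, hBP, hA'c, hB'c, ?_⟩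
  have hstep : ∀ j, Ad φ ψ a (T / 2 ^ j) (S j) (R j) := by
    intro j
    induction j with
    | zero =>
      rw [pow_zero, div_one, hS0, hR0]
      exact h
    | succ j ih =>
      refine ad_half hr hr' (hSP j) (hRP j) (hSM j) (hRM j) ?_
      have e : T / 2 ^ (j + 1) + T / 2 ^ (j + 1) = T / 2 ^ j := by
        rw [pow_succ]
        field_simp
        ring
      rwa [e]
  have hdy : ∀ j n : ℕ, Ad φ ψ a (n * (T / 2 ^ j)) A' B' := by
    intro j n
    refine ad_lim hSl hRl ?_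
    filter_upwards [eventually_ge_atTop j] with i hi
    have e : (n : ℝ) * (T / 2 ^ j) = ((n * 2 ^ (i - j) : ℕ) : ℝ) * (T / 2 ^ i) := by
      push_cast
      have : (2 : ℝ) ^ i = 2 ^ (i - j) * 2 ^ j := by
        rw [← pow_add]
        congr 1
        omega
      rw [this]
      field_simp
    rw [e]
    exact ad_mul (hSP i) (hRP i) (hstep i) _
  intro t ht
  have h2 : Tendsto (fun j : ℕ => (2 : ℝ) ^ j / T) atTop atTop :=
    (tendsto_pow_atTop_atTop_of_one_lt (by norm_num)).atTop_div_const hT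
  have h3 := (tendsto_nat_floor_mul_div_atTop ht).comp h2
  refine ad_time hA'c hB'c h3 fun j => ?_
  have h4 := hdy j ⌊t * (2 ^ j / T)⌋₊
  have e : ((⌊t * (2 ^ j / T)⌋₊ : ℕ) : ℝ) * (T / 2 ^ j) = (⌊t * (2 ^ j / T)⌋₊ : ℝ) / (2 ^ j / T) := by
    field_simp
  rw [e] at h4
  exact h4

end Pool.Agent.X214.AF
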