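import Pool.Agent.X214.AF.Fam

/-!
# Cocycles over a flow and averaged metrics
-/

set_option autoImplicit false

open scoped Manifold ContDiff Topology Bundle
open Set Filter Bundle

namespace Pool.Agent.X214.AF

open Pool.Agent.X214.AM

variable {E : Type} [NormedAddCommGroup E] [NormedSpace ℝ E] [FiniteDimensional ℝ E]
  {M : Type} [TopologicalSpace M] [ChartedSpace E M] [IsManifold 𝓘(ℝ, E) ∞ M]
  {Λ : Set M} {F : ∀ x : M, Submodule ℝ (TangentSpace 𝓘(ℝ, E) x)} {σ : ℝ → Λ → Λ}

/-- A point of the tangent bundle over `Λ`. -/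
def pt (x : Λ) (v : F x) : TangentBundle 𝓘(ℝ, E) M := ⟨(x : M), (v : TangentSpace 𝓘(ℝ, E) (x : M))⟩

/-- A continuous linear cocycle on `F` over `σ`. -/
structure Coc (Λ : Set M) (F : ∀ x : M, Submodule ℝ (TangentSpace 𝓘(ℝ, E) x))
    (σ : ℝ → Λ → Λ) where
  /-- the maps of the fibres -/
  L : ∀ (t : ℝ) (x : Λ), F x ≃ₗ[ℝ] F (σ t x)
  zero : ∀ (x : Λ) (v : F x), pt (σ 0 x) (L 0 x v) = pt x v
  add : ∀ (s t : ℝ) (x : Λ) (v : F x),
    pt (σ (s + t) x) (L (s + t) x v) = pt (σ s (σ t x)) (L s (σ t x) (L t x v))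
  lim : ∀ (ι : Type) (u : Ultrafilter ι) (t : ι → ℝ) (x : ι → Λ) (v : ∀ i, F (x i)) (t0 : ℝ)
    (x0 : Λ) (v0 : F x0), Tendsto t u (𝓝 t0) → LimF (u : Filter ι) x v x0 v0 →
    LimF (u : Filter ι) (fun i => σ (t i) (x i)) (fun i => L (t i) (x i) (v i)) (σ t0 x0)
      (L t0 x0 v0)

omit [FiniteDimensional ℝ E] in
lemma fam_congr (A : Fam Λ F) {x y : Λ} {v w : F x} {v' w' : F y} (h1 : pt x v = pt y v')
    (h2 : pt x w = pt y w') : A x v w = A y v' w' := by
  unfold pt at h1 h2
  rw [TotalSpace.mk.injEq] at h1 h2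
  obtain ⟨h, h1⟩ := h1
  have hxy : x = y := Subtype.ext h
  subst hxy
  rw [Subtype.ext (eq_of_heq h1), Subtype.ext (eq_of_heq h2.2)]

variable (φ : Coc Λ F σ)

/-- The pull back of a family by the time `t` map. -/
noncomputable def pul (t : ℝ) (A : Fam Λ F) : Fam Λ F := fun x =>
  (A (σ t x)).compl₁₂ (φ.L t x : F x →ₗ[ℝ] F (σ t x)) (φ.L t x : F x →ₗ[ℝ] F (σ t x))

lemma pul_apply (t : ℝ) (A : Fam Λ F) (x : Λ) (v w : F x) :
    pul φ t A x v w = A (σ t x) (φ.L t x v) (φ.L t x w) := rfl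

lemma pul_zero (A : Fam Λ F) : pul φ 0 A = A := by
  funext x
  ext v w
  exact fam_congr A (φ.zero x v) (φ.zero x w)

lemma pul_add (s t : ℝ) (A : Fam Λ F) : pul φ (s + t) A = pul φ t (pul φ s A) := by
  funext x
  ext v w
  exact fam_congr A (φ.add s t x v) (φ.add s t x w)

lemma pul_pd {A : Fam Λ F} (hA : ∀ x, PD (A x)) (t : ℝ) (x : Λ) : PD (pul φ t A x) := by
  refine ⟨fun v w => (hA _).1 _ _, fun v hv => (hA _).2 _ ?_⟩
  intro h
  exact hv ((φ.L t x).map_eq_zero_iff.1 h)

lemma pul_lim {A : Fam Λ F} (hA : CtsF A) {ι : Type} {u : Ultrafilter ι} {t : ι → ℝ} {x : ι → Λ}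
    {v w : ∀ i, F (x i)} {t0 : ℝ} {x0 : Λ} {v0 w0 : F x0} (ht : Tendsto t u (𝓝 t0))
    (hv : LimF (u : Filter ι) x v x0 v0) (hw : LimF (u : Filter ι) x w x0 w0) :
    Tendsto (fun i => pul φ (t i) A (x i) (v i) (w i)) u (𝓝 (pul φ t0 A x0 v0 w0)) :=
  hA ι u (fun i => σ (t i) (x i)) (fun i => φ.L (t i) (x i) (v i))
    (fun i => φ.L (t i) (x i) (w i)) (σ t0 x0) (φ.L t0 x0 v0) (φ.L t0 x0 w0)
    (φ.lim ι u t x v t0 x0 v0 ht hv) (φ.lim ι u t x w t0 x0 w0 ht hw)

lemma pul_cts {A : Fam Λ F} (hA : CtsF A) (t : ℝ) : CtsF (pul φ t A) :=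
  fun _ _ _ _ _ _ _ _ hv hw => pul_lim φ hA (t := fun _ => t) tendsto_const_nhds hv hw

omit [FiniteDimensional ℝ E] in
lemma limF_const {ι : Type} (u : Filter ι) (x : Λ) (v : F x) :
    LimF u (fun _ => x) (fun _ => v) x v := tendsto_const_nhds

lemma continuous_pul {A : Fam Λ F} (hA : CtsF A) (x : Λ) (v w : F x) :
    Continuous fun t => pul φ t A x v w := by
  rw [continuous_iff_ultrafilter]
  intro t0 u hu
  exact pul_lim φ hA (u := u) (t := fun t => t) (x := fun _ => x) (v := fun _ => v)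
    (w := fun _ => w) hu (limF_const _ x v) (limF_const _ x w)

variable (g : CMetric E M)

include g in
/-- Uniform bounds on bounded time intervals. -/
lemma exists_bound [CompactSpace Λ] (hF : IsClosed (tot Λ F)) {A : Fam Λ F}
    (hA : ∀ x, PD (A x)) (hc : CtsF A) :
    ∃ K : ℝ, 1 ≤ K ∧ ∀ t ∈ Icc (-2 : ℝ) 2, ∀ (x : Λ) (v : F x),
      pul φ t A x v v ≤ K * A x v v := by
  by_contra hcon
  push Not at hcon
  have h1 : ∀ n : ℕ, ∃ t ∈ Icc (-2 : ℝ) 2, ∃ (x : Λ) (v : F x),
      A x v v = 1 ∧ ((n : ℝ) + 1) < pul φ t A x v v := by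
    intro n
    obtain ⟨t, ht, x, v, hv⟩ := hcon ((n : ℝ) + 1) (by linarith [n.cast_nonneg (α := ℝ)])
    have hv0 : v ≠ 0 := by
      rintro rfl
      simp at hv
    have hpos := (hA x).2 v hv0
    have hs : √(A x v v) * √(A x v v) = A x v v := Real.mul_self_sqrt hpos.le
    refine ⟨t, ht, x, (√(A x v v))⁻¹ • v, ?_, ?_⟩
    · simp only [map_smul, LinearMap.smul_apply, smul_eq_mul]
      rw [← mul_assoc, ← mul_inv, hs, inv_mul_cancel₀ hpos.ne']
    · simp only [map_smul, LinearMap.smul_apply, smul_eq_mul]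
      rw [← mul_assoc, ← mul_inv, hs]
      calc (n : ℝ) + 1 = (A x v v)⁻¹ * (((n : ℝ) + 1) * A x v v) := by field_simp
        _ < (A x v v)⁻¹ * pul φ t A x v v := by
          apply mul_lt_mul_of_pos_left hv
          exact inv_pos.2 hpos
  choose t ht x v hv1 hv2 using h1
  let u : Ultrafilter ℕ := hyperfilter ℕ
  obtain ⟨x0, hx0⟩ : ∃ x0, Tendsto x u (𝓝 x0) := by
    obtain ⟨a, -, ha⟩ := isCompact_univ.ultrafilter_le_nhds' (Ultrafilter.map x u) univ_mem
    exact ⟨a, ha⟩
  obtain ⟨t0, ht0⟩ : ∃ t0, Tendsto t u (𝓝 t0) := by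
    obtain ⟨a, -, ha⟩ := (isCompact_Icc (a := (-2 : ℝ)) (b := 2)).ultrafilter_le_nhds'
      (Ultrafilter.map t u) (by
        rw [Ultrafilter.mem_map]
        exact Filter.univ_mem' ht)
    exact ⟨a, ha⟩
  obtain ⟨v0, hv0⟩ := exists_lim_fam g hF hA hc (u := u) (x := x) (v := v) (x0 := x0)
    ((continuous_subtype_val.tendsto x0).comp hx0) (Eventually.of_forall hv1)
  have h2 := pul_lim φ hc ht0 hv0 hv0
  have h3 : Tendsto (fun n : ℕ => (n : ℝ) + 1) (u : Filter ℕ) atTop :=
    (tendsto_atTop_add_const_right _ 1 tendsto_natCast_atTop_atTop).mono_left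
      Nat.hyperfilter_le_atTop
  have h4 : Tendsto (fun n => pul φ (t n) A (x n) (v n) (v n)) (u : Filter ℕ) atTop :=
    tendsto_atTop_mono (fun n => (hv2 n).le) h3
  exact not_tendsto_nhds_of_tendsto_atTop h4 _ h2

/-- The lower bound. -/
lemma bound_lower {A : Fam Λ F} {K : ℝ}
    (h : ∀ t ∈ Icc (-2 : ℝ) 2, ∀ (x : Λ) (v : F x), pul φ t A x v v ≤ K * A x v v) :
    ∀ t ∈ Icc (-2 : ℝ) 2, ∀ (x : Λ) (v : F x), A x v v ≤ K * pul φ t A x v v := by
  intro t ht x v
  have h1 := h (-t) ⟨by linarith [ht.2], by linarith [ht.1]⟩ (σ t x) (φ.L t x v)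
  have h2 : pul φ (-t) A (σ t x) (φ.L t x v) (φ.L t x v) = A x v v := by
    have h3 : pul φ (-t + t) A x v v = A x v v := by
      rw [neg_add_cancel, pul_zero]
    rw [← h3, pul_add]
    rfl
  rw [h2] at h1
  exact h1

/-- The averaged family. -/
noncomputable def avg {A : Fam Λ F} (hA : CtsF A) : Fam Λ F := fun x =>
  LinearMap.mk₂ ℝ (fun v w => ∫ r in (0 : ℝ)..1, pul φ r A x v w)
    (fun u v w => by
      simp only [map_add, LinearMap.add_apply]
      exact intervalIntegral.integral_add ((continuous_pul φ hA x u w).intervalIntegrable _ _)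
        ((continuous_pul φ hA x v w).intervalIntegrable _ _))
    (fun c v w => by
      simp only [map_smul, LinearMap.smul_apply, smul_eq_mul]
      exact intervalIntegral.integral_const_mul _ _)
    (fun u v w => by
      simp only [map_add]
      exact intervalIntegral.integral_add ((continuous_pul φ hA x u v).intervalIntegrable _ _)
        ((continuous_pul φ hA x u w).intervalIntegrable _ _))
    (fun c v w => by
      simp only [map_smul, smul_eq_mul]
      exact intervalIntegral.integral_const_mul _ _)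

lemma avg_apply {A : Fam Λ F} (hA : CtsF A) (x : Λ) (v w : F x) :
    avg φ hA x v w = ∫ r in (0 : ℝ)..1, pul φ r A x v w := rfl

lemma avg_le {A : Fam Λ F} (hA : CtsF A) {K : ℝ}
    (h : ∀ t ∈ Icc (-2 : ℝ) 2, ∀ (x : Λ) (v : F x), pul φ t A x v v ≤ K * A x v v)
    (x : Λ) (v : F x) : avg φ hA x v v ≤ K * A x v v := by
  rw [avg_apply]
  have h1 := intervalIntegral.integral_mono_on (a := (0 : ℝ)) (b := 1) zero_le_one
    ((continuous_pul φ hA x v v).intervalIntegrable _ _)
    (continuous_const.intervalIntegrable _ _ : IntervalIntegrable (fun _ => K * A x v v) MeasureTheory.volume _ _)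
    fun t ht => h t ⟨by linarith [ht.1], by linarith [ht.2]⟩ x v
  simpa using h1

lemma le_avg {A : Fam Λ F} (hA : CtsF A) {K : ℝ}
    (h : ∀ t ∈ Icc (-2 : ℝ) 2, ∀ (x : Λ) (v : F x), pul φ t A x v v ≤ K * A x v v)
    (x : Λ) (v : F x) : A x v v ≤ K * avg φ hA x v v := by
  rw [avg_apply, ← intervalIntegral.integral_const_mul]
  have h1 := intervalIntegral.integral_mono_on (a := (0 : ℝ)) (b := 1) zero_le_one
    (continuous_const.intervalIntegrable _ _ : IntervalIntegrable (fun _ => A x v v) MeasureTheory.volume _ _)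
    (((continuous_pul φ hA x v v).const_mul K).intervalIntegrable _ _)
    fun t ht => bound_lower φ h t ⟨by linarith [ht.1], by linarith [ht.2]⟩ x v
  simpa using h1

lemma avg_pd {A : Fam Λ F} (hP : ∀ x, PD (A x)) (hA : CtsF A) {K : ℝ} (hK : 1 ≤ K)
    (h : ∀ t ∈ Icc (-2 : ℝ) 2, ∀ (x : Λ) (v : F x), pul φ t A x v v ≤ K * A x v v)
    (x : Λ) : PD (avg φ hA x) := by
  refine ⟨fun v w => ?_, fun v hv => ?_⟩
  · rw [avg_apply, avg_apply]
    refine intervalIntegral.integral_congr fun t _ => ?_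
    exact (hP _).1 _ _
  · have h1 := le_avg φ hA h x v
    have h2 := (hP x).2 v hv
    by_contra hcon
    push Not at hcon
    nlinarith

/-- The averaged family is continuous. -/
lemma avg_cts {A : Fam Λ F} (hP : ∀ x, PD (A x)) (hA : CtsF A) : CtsF (avg φ hA) := by
  refine cts_of_sq (fun x v w => ?_) ?_
  · rw [avg_apply, avg_apply]
    exact intervalIntegral.integral_congr fun t _ => (hP _).1 _ _
  intro ι u x v x0 v0 hv
  have hunif : ∀ ε > 0, ∀ᶠ i in (u : Filter ι), ∀ r ∈ Icc (0 : ℝ) 1,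
      |pul φ r A (x i) (v i) (v i) - pul φ r A x0 v0 v0| ≤ ε := by
    intro ε hε
    by_contra hcon
    rw [← Ultrafilter.eventually_not] at hcon
    have h1 : ∀ i, ∃ r ∈ Icc (0 : ℝ) 1, (¬ ∀ r ∈ Icc (0 : ℝ) 1,
        |pul φ r A (x i) (v i) (v i) - pul φ r A x0 v0 v0| ≤ ε) →
        ε < |pul φ r A (x i) (v i) (v i) - pul φ r A x0 v0 v0| := by
      intro i
      by_cases h : ∀ r ∈ Icc (0 : ℝ) 1, |pul φ r A (x i) (v i) (v i) - pul φ r A x0 v0 v0| ≤ ε
      · exact ⟨0, ⟨le_rfl, zero_le_one⟩, fun h' => absurd h h'⟩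
      · push Not at h
        obtain ⟨r, hr, hr2⟩ := h
        exact ⟨r, hr, fun _ => hr2⟩
    choose r hr hr2 using h1
    obtain ⟨r0, hr0⟩ : ∃ r0, Tendsto r u (𝓝 r0) := by
      obtain ⟨a, -, ha⟩ := (isCompact_Icc (a := (0 : ℝ)) (b := 1)).ultrafilter_le_nhds'
        (Ultrafilter.map r u) (by
          rw [Ultrafilter.mem_map]
          exact Filter.univ_mem' hr)
      exact ⟨a, ha⟩
    have h2 := pul_lim φ hA hr0 hv hv
    have h3 := ((continuous_pul φ hA x0 v0 v0).tendsto r0).comp hr0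
    have h4 := (h2.sub h3).abs
    rw [sub_self, abs_zero] at h4
    have h5 := h4.eventually (gt_mem_nhds hε)
    obtain ⟨i, hi, hi2⟩ := (h5.and hcon).exists
    have := hr2 i hi2
    simp only [Function.comp_apply] at hi
    linarith
  rw [Metric.tendsto_nhds]
  intro ε hε
  filter_upwards [hunif (ε / 2) (by positivity)] with i hi
  rw [Real.dist_eq, avg_apply, avg_apply, ← intervalIntegral.integral_sub
    ((continuous_pul φ hA (x i) (v i) (v i)).intervalIntegrable _ _)
    ((continuous_pul φ hA x0 v0 v0).intervalIntegrable _ _)]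
  have h6 := intervalIntegral.norm_integral_le_of_norm_le_const (a := (0 : ℝ)) (b := 1)
    (f := fun r => pul φ r A (x i) (v i) (v i) - pul φ r A x0 v0 v0) (C := ε / 2) fun r hr => by
      rw [uIoc_of_le zero_le_one] at hr
      exact hi r ⟨hr.1.le, hr.2⟩
  rw [Real.norm_eq_abs] at h6
  have : ε / 2 * |(1 : ℝ) - 0| = ε / 2 := by simp
  linarith

/-- The Lipschitz condition along the flow. -/
def Lip (K : ℝ) (A : Fam Λ F) : Prop :=
  ∀ s : ℝ, 0 ≤ s → ∀ (x : Λ) (v : F x), pul φ s A x v v ≤ Real.exp (K * s) * A x v v ∧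
    A x v v ≤ Real.exp (K * s) * pul φ s A x v v

lemma lip_of_short {K : ℝ} {A : Fam Λ F}
    (h : ∀ s ∈ Icc (0 : ℝ) 1, ∀ (x : Λ) (v : F x), pul φ s A x v v ≤ Real.exp (K * s) * A x v v ∧
      A x v v ≤ Real.exp (K * s) * pul φ s A x v v) : Lip φ K A := by
  have key : ∀ n : ℕ, ∀ s : ℝ, 0 ≤ s → s ≤ n → ∀ (x : Λ) (v : F x),
      pul φ s A x v v ≤ Real.exp (K * s) * A x v v ∧
      A x v v ≤ Real.exp (K * s) * pul φ s A x v v := by
    intro n
    induction n with
    | zero =>
      intro s h0 h1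
      exact h s ⟨h0, h1.trans (by simp)⟩
    | succ n ih =>
      intro s h0 h1 x v
      by_cases hs : s ≤ 1
      · exact h s ⟨h0, hs⟩ x v
      · push Not at hs
        have e1 : s = 1 + (s - 1) := by ring
        have h2 := ih (s - 1) (by linarith) (by push_cast at h1; linarith) x v
        have h3 := h 1 ⟨zero_le_one, le_rfl⟩ (σ (s - 1) x) (φ.L (s - 1) x v)
        have e2 : pul φ s A x v v = pul φ 1 A (σ (s - 1) x) (φ.L (s - 1) x v)
            (φ.L (s - 1) x v) := by
          conv_lhs => rw [e1, pul_add]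
          rfl
        rw [e2]
        have e3 : Real.exp (K * s) = Real.exp (K * 1) * Real.exp (K * (s - 1)) := by
          rw [← Real.exp_add]
          congr 1
          ring
        rw [e3]
        have e4 : A (σ (s - 1) x) (φ.L (s - 1) x v) (φ.L (s - 1) x v) = pul φ (s - 1) A x v v := rfl
        rw [e4] at h3
        constructor
        · calc _ ≤ Real.exp (K * 1) * pul φ (s - 1) A x v v := h3.1
            _ ≤ Real.exp (K * 1) * (Real.exp (K * (s - 1)) * A x v v) :=
                mul_le_mul_of_nonneg_left h2.1 (Real.exp_pos _).le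
            _ = _ := by ring
        · calc A x v v ≤ Real.exp (K * (s - 1)) * pul φ (s - 1) A x v v := h2.2
            _ ≤ Real.exp (K * (s - 1)) * (Real.exp (K * 1) * pul φ 1 A (σ (s - 1) x)
                  (φ.L (s - 1) x v) (φ.L (s - 1) x v)) :=
                mul_le_mul_of_nonneg_left h3.2 (Real.exp_pos _).le
            _ = _ := by ring
  intro s hs x v
  exact key ⌈s⌉₊ s hs (Nat.le_ceil s) x v

/-- The averaged family is Lipschitz along the flow. -/
lemma avg_lip {A : Fam Λ F} (hP : ∀ x, PD (A x)) (hA : CtsF A) {K : ℝ} (hK : 1 ≤ K)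
    (h : ∀ t ∈ Icc (-2 : ℝ) 2, ∀ (x : Λ) (v : F x), pul φ t A x v v ≤ K * A x v v) :
    Lip φ K (avg φ hA) := by
  apply lip_of_short
  intro s hs x v
  set q : ℝ → ℝ := fun r => pul φ r A x v v with hq
  have hqc : Continuous q := continuous_pul φ hA x v v
  have hq0 : ∀ r, 0 ≤ q r := by
    intro r
    by_cases hv : v = 0
    · simp [hq, hv]
    · exact ((pul_pd φ hP r x).2 v hv).le
  have hqK : ∀ r r', |r - r'| ≤ 2 → q r ≤ K * q r' := by
    intro r r' hr
    have h1 := h (r - r') (abs_le.1 hr) (σ r' x) (φ.L r' x v)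
    have e1 : q r = pul φ (r - r') A (σ r' x) (φ.L r' x v) (φ.L r' x v) := by
      simp only [hq]
      have e2 : r = (r - r') + r' := by ring
      conv_lhs => rw [e2, pul_add]
      rfl
    rw [e1]
    exact h1
  have hint : ∀ a b : ℝ, IntervalIntegrable q MeasureTheory.volume a b := fun a b =>
    hqc.intervalIntegrable a b
  have e0 : avg φ hA x v v = ∫ r in (0 : ℝ)..1, q r := rfl
  have es : pul φ s (avg φ hA) x v v = ∫ r in s..(1 + s), q r := by
    have h1 : pul φ s (avg φ hA) x v v = ∫ r in (0 : ℝ)..1, q (r + s) := by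
      rw [pul_apply, avg_apply]
      refine intervalIntegral.integral_congr fun r _ => ?_
      simp only [hq]
      rw [pul_add]
      rfl
    rw [h1, intervalIntegral.integral_comp_add_right, zero_add]
  have hI0 : 0 ≤ ∫ r in (0 : ℝ)..1, q r :=
    intervalIntegral.integral_nonneg zero_le_one fun r _ => hq0 r
  have hIs : 0 ≤ ∫ r in s..(1 + s), q r :=
    intervalIntegral.integral_nonneg (by linarith) fun r _ => hq0 r
  have hs0 := hs.1
  have hs1 := hs.2
  have b1 : ∫ r in (1 : ℝ)..(1 + s), q r ≤ s * (K * ∫ r in (0 : ℝ)..1, q r) := by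
    have h1 : ∀ r ∈ Icc (1 : ℝ) (1 + s), q r ≤ K * ∫ r in (0 : ℝ)..1, q r := by
      intro r hr
      rw [← intervalIntegral.integral_const_mul]
      have h2 := intervalIntegral.integral_mono_on (a := (0 : ℝ)) (b := 1) zero_le_one
        (continuous_const.intervalIntegrable _ _ : IntervalIntegrable (fun _ => q r) MeasureTheory.volume _ _)
        ((hqc.const_mul K).intervalIntegrable _ _)
        fun r' hr' => hqK r r' (abs_le.2 ⟨by linarith [hr.1, hr'.2], by linarith [hr.2, hr'.1]⟩)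
      simpa using h2
    have h2 := intervalIntegral.integral_mono_on (a := (1 : ℝ)) (b := 1 + s) (by linarith)
      (hint _ _) (continuous_const.intervalIntegrable _ _ : IntervalIntegrable
        (fun _ => K * ∫ r in (0 : ℝ)..1, q r) MeasureTheory.volume _ _) h1
    rw [intervalIntegral.integral_const, smul_eq_mul] at h2
    have : 1 + s - 1 = s := by ring
    rwa [this] at h2
  have b2 : ∫ r in (0 : ℝ)..s, q r ≤ s * (K * ∫ r in s..(1 + s), q r) := by
    have h1 : ∀ r ∈ Icc (0 : ℝ) s, q r ≤ K * ∫ r in s..(1 + s), q r := by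
      intro r hr
      rw [← intervalIntegral.integral_const_mul]
      have h2 := intervalIntegral.integral_mono_on (a := s) (b := 1 + s) (by linarith)
        (continuous_const.intervalIntegrable _ _ : IntervalIntegrable (fun _ => q r) MeasureTheory.volume _ _)
        ((hqc.const_mul K).intervalIntegrable _ _)
        fun r' hr' => hqK r r' (abs_le.2 ⟨by linarith [hr.1, hr'.2], by linarith [hr.2, hr'.1]⟩)
      rw [intervalIntegral.integral_const, smul_eq_mul] at h2
      have : 1 + s - s = 1 := by ring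
      rwa [this, one_mul] at h2
    have h2 := intervalIntegral.integral_mono_on (a := (0 : ℝ)) (b := s) hs0
      (hint _ _) (continuous_const.intervalIntegrable _ _ : IntervalIntegrable
        (fun _ => K * ∫ r in s..(1 + s), q r) MeasureTheory.volume _ _) h1
    rw [intervalIntegral.integral_const, smul_eq_mul, sub_zero] at h2
    exact h2
  have c1 : (∫ r in (0 : ℝ)..s, q r) + ∫ r in s..(1 + s), q r =
      (∫ r in (0 : ℝ)..1, q r) + ∫ r in (1 : ℝ)..(1 + s), q r := by
    rw [intervalIntegral.integral_add_adjacent_intervals (hint _ _) (hint _ _),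
      intervalIntegral.integral_add_adjacent_intervals (hint _ _) (hint _ _)]
  have p1 : 0 ≤ ∫ r in (0 : ℝ)..s, q r :=
    intervalIntegral.integral_nonneg hs0 fun r _ => hq0 r
  have p2 : 0 ≤ ∫ r in (1 : ℝ)..(1 + s), q r :=
    intervalIntegral.integral_nonneg (by linarith) fun r _ => hq0 r
  have hexp : 1 + K * s ≤ Real.exp (K * s) := by linarith [Real.add_one_le_exp (K * s)]
  rw [e0, es]
  constructor
  · calc ∫ r in s..(1 + s), q r ≤ (1 + K * s) * ∫ r in (0 : ℝ)..1, q r := by nlinarith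
      _ ≤ _ := mul_le_mul_of_nonneg_right hexp hI0
  · calc ∫ r in (0 : ℝ)..1, q r ≤ (1 + K * s) * ∫ r in s..(1 + s), q r := by nlinarith
      _ ≤ _ := mul_le_mul_of_nonneg_right hexp hIs

end Pool.Agent.X214.AF
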