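import Pool.Agent.X214.AM.Defs

/-!
# Sectional-hyperbolic sets of flows: the definitions
-/

set_option autoImplicit false

open scoped Manifold ContDiff Topology Bundle
open Set Filter Bundle

namespace Pool.Agent.X214.AF

open Pool.Agent.X214.AM (IsSubbundle)

variable {E : Type} [NormedAddCommGroup E] [NormedSpace ℝ E]
  {M : Type} [TopologicalSpace M] [ChartedSpace E M] [IsManifold 𝓘(ℝ, E) ∞ M]

/-- The continuous Riemannian metrics on `M`. -/
abbrev CRMetric (E M : Type) [NormedAddCommGroup E] [NormedSpace ℝ E] [TopologicalSpace M]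
    [ChartedSpace E M] [IsManifold 𝓘(ℝ, E) ∞ M] : Type :=
  ContinuousRiemannianMetric E (TangentSpace 𝓘(ℝ, E) : M → Type)

/-- The length of a tangent vector. -/
noncomputable def len (g : CRMetric E M) (x : M) (v : TangentSpace 𝓘(ℝ, E) x) : ℝ :=
  √(g.inner x v v)

/-- The norm of `w 0 ∧ w 1` induced by the metric `g`: the square root of the Gram determinant. -/
noncomputable def area (g : CRMetric E M) (x : M) (w : Fin 2 → TangentSpace 𝓘(ℝ, E) x) : ℝ :=
  √(Matrix.of fun i j => g.inner x (w i) (w j)).det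

/-- `φ` is the flow of the vector field `X`. -/
structure IsFlow (X : ∀ x : M, TangentSpace 𝓘(ℝ, E) x) (φ : ℝ → M → M) : Prop where
  zero : ∀ x, φ 0 x = x
  curve : ∀ x, IsMIntegralCurve (fun t => φ t x) X

/-- The derivative at `x` of the time `t` map of the flow. -/
noncomputable def D (φ : ℝ → M → M) (t : ℝ) (x : M) :
    TangentSpace 𝓘(ℝ, E) x →L[ℝ] TangentSpace 𝓘(ℝ, E) (φ t x) :=
  mfderiv 𝓘(ℝ, E) 𝓘(ℝ, E) (φ t) x

/-- `Λ` is sectional-hyperbolic for the flow `φ`, with splitting `G ⊕ F` and constants `C`, `a`, in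
the metric `g`. -/
structure SecHyp (g : CRMetric E M) (φ : ℝ → M → M) (Λ : Set M)
    (G F : ∀ x : M, Submodule ℝ (TangentSpace 𝓘(ℝ, E) x)) (C a : ℝ) : Prop where
  subG : ∃ r, IsSubbundle Λ G r
  subF : ∃ r, 2 ≤ r ∧ IsSubbundle Λ F r
  compl : ∀ x ∈ Λ, IsCompl (G x) (F x)
  invG : ∀ t, ∀ x ∈ Λ, (G x).map (D φ t x).toLinearMap = G (φ t x)
  invF : ∀ t, ∀ x ∈ Λ, (F x).map (D φ t x).toLinearMap = F (φ t x)
  dom : ∀ x ∈ Λ, ∀ t > 0, ∀ v ∈ G x, ∀ w ∈ F x,
    len g _ (D φ t x v) * len g x w ≤ C * Real.exp (-(a * t)) * (len g x v * len g _ (D φ t x w))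
  contr : ∀ x ∈ Λ, ∀ t > 0, ∀ v ∈ G x, len g _ (D φ t x v) ≤ C * Real.exp (-(a * t)) * len g x v
  sec : ∀ x ∈ Λ, ∀ t > 0, ∀ w : Fin 2 → TangentSpace 𝓘(ℝ, E) x, (∀ i, w i ∈ F x) →
    C⁻¹ * Real.exp (a * t) * area g x w ≤ area g (φ t x) fun i => D φ t x (w i)

end Pool.Agent.X214.AF
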