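import Pool.Agent.X214.AF.Fam
import Pool.Agent.X214.AM.Smooth

/-!
# Extension to a continuous Riemannian metric
-/

set_option autoImplicit false

open scoped Manifold ContDiff Topology Bundle
open Set Filter Bundle

namespace Pool.Agent.X214.AF

open Pool.Agent.X214.AM

variable {E : Type} [NormedAddCommGroup E] [NormedSpace ℝ E] [FiniteDimensional ℝ E]
  {M : Type} [TopologicalSpace M] [ChartedSpace E M] [IsManifold 𝓘(ℝ, E) ∞ M]
  {Λ : Set M} {G F : ∀ x : M, Submodule ℝ (TangentSpace 𝓘(ℝ, E) x)}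

/-- The projection to `G` along `F`. -/
noncomputable def pr {G F : ∀ x : M, Submodule ℝ (TangentSpace 𝓘(ℝ, E) x)}
    (hc : ∀ x : Λ, IsCompl (G x) (F x)) (x : Λ) :
    TangentSpace 𝓘(ℝ, E) (x : M) →ₗ[ℝ] G x := (G x).projectionOnto (F x) (hc x)

lemma pr_add (hc : ∀ x : Λ, IsCompl (G x) (F x)) (x : Λ) (v : TangentSpace 𝓘(ℝ, E) (x : M)) :
    (pr hc x v : TangentSpace 𝓘(ℝ, E) (x : M)) +
      (pr (fun x => (hc x).symm) x v : TangentSpace 𝓘(ℝ, E) (x : M)) = v :=
  Submodule.projection_add_projection_eq_self (hc x) v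

lemma pr_left (hc : ∀ x : Λ, IsCompl (G x) (F x)) (x : Λ) (v : G x) :
    pr hc x (v : TangentSpace 𝓘(ℝ, E) (x : M)) = v :=
  Submodule.projectionOnto_apply_left (hc x) v

lemma pr_right (hc : ∀ x : Λ, IsCompl (G x) (F x)) (x : Λ) (v : F x) :
    pr hc x (v : TangentSpace 𝓘(ℝ, E) (x : M)) = 0 :=
  Submodule.projectionOnto_apply_right (hc x) v

variable (g : CMetric E M)

include g in
/-- The projections are continuous. -/
lemma lim_pr (hG : IsClosed (tot Λ G)) (hF : IsClosed (tot Λ F))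
    (hc : ∀ x : Λ, IsCompl (G x) (F x)) {ι : Type} {u : Ultrafilter ι} {x : ι → Λ}
    {v : ∀ i, TangentSpace 𝓘(ℝ, E) (x i : M)} {x0 : Λ} {v0 : TangentSpace 𝓘(ℝ, E) (x0 : M)}
    (hv : Lim (u : Filter ι) (fun i => (x i : M)) v x0 v0) :
    LimF (u : Filter ι) x (fun i => pr hc (x i) (v i)) x0 (pr hc x0 v0) := by
  have hx : Tendsto (fun i => (x i : M)) u (𝓝 (x0 : M)) := (lim_iff.1 hv).1
  set a : ∀ i, G (x i) := fun i => pr hc (x i) (v i) with ha
  set b : ∀ i, F (x i) := fun i => pr (fun x => (hc x).symm) (x i) (v i) with hb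
  have hab : ∀ i, (b i : TangentSpace 𝓘(ℝ, E) (x i : M)) = v i + (-1 : ℝ) • (a i : _) := by
    intro i
    have := pr_add hc (x i) (v i)
    rw [neg_one_smul, ← sub_eq_add_neg, eq_sub_iff_add_eq, add_comm]
    exact this
  by_cases hR : ∃ R : ℝ, ∀ᶠ i in (u : Filter ι), resF Λ G g (x i) (a i) (a i) ≤ R
  · obtain ⟨R, hR⟩ := hR
    obtain ⟨a0, ha0⟩ := exists_limF g hG hx hR
    have h1 : Lim (u : Filter ι) (fun i => (x i : M))
        (fun i => (b i : TangentSpace 𝓘(ℝ, E) (x i : M))) x0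
        (v0 + (-1 : ℝ) • (a0 : TangentSpace 𝓘(ℝ, E) (x0 : M))) := by
      simp only [hab]
      exact lim_add hv (lim_smul tendsto_const_nhds ha0)
    have h2 := mem_of_lim hF h1
    have h3 : pr hc x0 v0 = a0 := by
      have e : v0 = (a0 : TangentSpace 𝓘(ℝ, E) (x0 : M)) +
          ((⟨_, h2⟩ : F x0) : TangentSpace 𝓘(ℝ, E) (x0 : M)) := by
        simp
      rw [e, map_add, pr_left, pr_right, add_zero]
    rw [h3]
    exact ha0
  · exfalso
    push Not at hR
    have hR' : ∀ R : ℝ, ∀ᶠ i in (u : Filter ι), R < resF Λ G g (x i) (a i) (a i) := hR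
    set s : ι → ℝ := fun i => resF Λ G g (x i) (a i) (a i) with hs
    have hsinf : Tendsto s u atTop := tendsto_atTop.2 fun R => by
      filter_upwards [hR' R] with i hi
      exact hi.le
    set c : ι → ℝ := fun i => (√(s i))⁻¹ with hcdef
    have hclim : Tendsto c u (𝓝 0) := by
      have h1 : Tendsto (fun i => √(s i)) u atTop := Real.tendsto_sqrt_atTop.comp hsinf
      exact tendsto_inv_atTop_zero.comp h1
    let w : ∀ i, G (x i) := fun i => c i • a i
    have hw1 : ∀ᶠ i in (u : Filter ι), resF Λ G g (x i) (w i) (w i) = 1 := by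
      filter_upwards [hR' 0] with i hi
      have h3 : √(s i) * √(s i) = s i := Real.mul_self_sqrt hi.le
      have h4 : s i ≠ 0 := hi.ne'
      calc resF Λ G g (x i) (w i) (w i) = (√(s i))⁻¹ * ((√(s i))⁻¹ * s i) := by
            simp only [w, hcdef, map_smul, LinearMap.smul_apply, smul_eq_mul]
            rfl
        _ = (√(s i) * √(s i))⁻¹ * s i := by
            rw [mul_inv]
            ring
        _ = 1 := by rw [h3, inv_mul_cancel₀ h4]
    obtain ⟨w0, hw0⟩ := exists_limF g hG (v := w) hx (hw1.mono fun i hi => hi.le)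
    have h6 : resF Λ G g x0 w0 w0 = 1 :=
      tendsto_nhds_unique (resF_cts g ι u x w w x0 w0 w0 hw0 hw0)
        (tendsto_const_nhds.congr' (hw1.mono fun i hi => hi.symm))
    have h7 : Lim (u : Filter ι) (fun i => (x i : M))
        (fun i => ((c i • b i : F (x i)) : TangentSpace 𝓘(ℝ, E) (x i : M))) x0
        ((0 : ℝ) • v0 + (-1 : ℝ) • (w0 : TangentSpace 𝓘(ℝ, E) (x0 : M))) := by
      have h8 := lim_add (lim_smul hclim hv) (lim_smul (c := fun _ => (-1 : ℝ))
        tendsto_const_nhds hw0)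
      have e : (fun i => ((c i • b i : F (x i)) : TangentSpace 𝓘(ℝ, E) (x i : M))) =
          fun i => c i • v i + (-1 : ℝ) • ((w i : G (x i)) : TangentSpace 𝓘(ℝ, E) (x i : M)) := by
        funext i
        simp only [Submodule.coe_smul, hab, w, smul_add]
        rw [smul_comm]
      rw [e]
      exact h8
    have h9 := mem_of_lim hF h7
    rw [zero_smul, zero_add, neg_one_smul] at h9
    have h10 : (w0 : TangentSpace 𝓘(ℝ, E) (x0 : M)) ∈ F x0 := by
      have := (F x0).neg_mem h9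
      rwa [neg_neg] at this
    have h11 : (w0 : TangentSpace 𝓘(ℝ, E) (x0 : M)) = 0 :=
      Submodule.disjoint_def.1 (hc x0).disjoint _ w0.2 h10
    have h12 : w0 = 0 := Subtype.ext h11
    rw [h12] at h6
    simp at h6

/-- The form on the tangent space given by forms on `G` and `F`. -/
noncomputable def dsum (hc : ∀ x : Λ, IsCompl (G x) (F x)) (A : Fam Λ G) (B : Fam Λ F) (x : Λ) :
    LinearMap.BilinForm ℝ (TangentSpace 𝓘(ℝ, E) (x : M)) :=
  (A x).compl₁₂ (pr hc x) (pr hc x) +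
    (B x).compl₁₂ (pr (fun x => (hc x).symm) x) (pr (fun x => (hc x).symm) x)

lemma dsum_apply (hc : ∀ x : Λ, IsCompl (G x) (F x)) (A : Fam Λ G) (B : Fam Λ F) (x : Λ)
    (v w : TangentSpace 𝓘(ℝ, E) (x : M)) : dsum hc A B x v w =
      A x (pr hc x v) (pr hc x w) +
        B x (pr (fun x => (hc x).symm) x v) (pr (fun x => (hc x).symm) x w) := rfl

lemma dsum_pd (hc : ∀ x : Λ, IsCompl (G x) (F x)) {A : Fam Λ G} {B : Fam Λ F}
    (hA : ∀ x, PD (A x)) (hB : ∀ x, PD (B x)) (x : Λ) : PD (dsum hc A B x) := by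
  refine ⟨fun v w => ?_, fun v hv => ?_⟩
  · rw [dsum_apply, dsum_apply, (hA x).1, (hB x).1]
  · rw [dsum_apply]
    have hAn : 0 ≤ A x (pr hc x v) (pr hc x v) := by
      by_cases h : pr hc x v = 0
      · rw [h]; simp
      · exact ((hA x).2 _ h).le
    by_cases h : pr (fun x => (hc x).symm) x v = 0
    · have h1 : pr hc x v ≠ 0 := by
        intro h2
        apply hv
        rw [← pr_add hc x v, h, h2]
        simp
      have := (hA x).2 _ h1
      rw [h]
      simpa using this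
    · have := (hB x).2 _ h
      linarith

include g in
lemma dsum_lim (hG : IsClosed (tot Λ G)) (hF : IsClosed (tot Λ F))
    (hc : ∀ x : Λ, IsCompl (G x) (F x)) {A : Fam Λ G} {B : Fam Λ F} (hA : CtsF A) (hB : CtsF B)
    {ι : Type} {u : Ultrafilter ι} {x : ι → Λ}
    {v w : ∀ i, TangentSpace 𝓘(ℝ, E) (x i : M)} {x0 : Λ} {v0 w0 : TangentSpace 𝓘(ℝ, E) (x0 : M)}
    (hv : Lim (u : Filter ι) (fun i => (x i : M)) v x0 v0)
    (hw : Lim (u : Filter ι) (fun i => (x i : M)) w x0 w0) :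
    Tendsto (fun i => dsum hc A B (x i) (v i) (w i)) u (𝓝 (dsum hc A B x0 v0 w0)) := by
  simp only [dsum_apply]
  exact (hA ι u x _ _ x0 _ _ (lim_pr g hG hF hc hv) (lim_pr g hG hF hc hw)).add
    (hB ι u x _ _ x0 _ _ (lim_pr g hF hG (fun x => (hc x).symm) hv)
      (lim_pr g hF hG (fun x => (hc x).symm) hw))

set_option backward.isDefEq.respectTransparency false in
/-- Positive definiteness is an open condition. -/
lemma pd_open {X : Type} [TopologicalSpace X] {β : X → E →L[ℝ] E →L[ℝ] ℝ} {x0 : X}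
    (hβ : ContinuousAt β x0) (h0 : ∀ v, v ≠ 0 → 0 < β x0 v v) :
    ∀ᶠ y in 𝓝 x0, ∀ v, v ≠ 0 → 0 < β y v v := by
  have : ProperSpace E := FiniteDimensional.proper ℝ E
  have hcc : ContinuousOn (fun v : E => β x0 v v) (Metric.sphere (0 : E) 1) := by
    have : Continuous fun v : E => β x0 v v := by fun_prop
    exact this.continuousOn
  obtain ⟨c, hc0, hc1⟩ := (isCompact_sphere (0 : E) 1).exists_forall_le' hcc (a := 0)
    (fun v hv => h0 v (by rintro rfl; simp at hv))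
  have h1 : ∀ᶠ y in 𝓝 x0, ‖β y - β x0‖ < c := by
    have h2 := (Metric.continuousAt_iff' (α := E →L[ℝ] E →L[ℝ] ℝ) (f := β)).1 hβ c hc0
    filter_upwards [h2] with y hy
    exact lt_of_eq_of_lt (dist_eq_norm (β y) (β x0)).symm hy
  filter_upwards [h1] with y hy v hv
  have hn : 0 < ‖v‖ := norm_pos_iff.2 hv
  have h2 := hc1 (‖v‖⁻¹ • v) (by simp [norm_smul, hn.ne'])
  have h3 : β x0 (‖v‖⁻¹ • v) (‖v‖⁻¹ • v) = (‖v‖⁻¹) ^ 2 * β x0 v v := by
    simp only [map_smul, smul_apply, smul_eq_mul]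
    ring
  rw [h3] at h2
  have h4 : c * ‖v‖ ^ 2 ≤ β x0 v v := by
    calc c * ‖v‖ ^ 2 ≤ ((‖v‖⁻¹) ^ 2 * β x0 v v) * ‖v‖ ^ 2 := by gcongr
      _ = β x0 v v := by field_simp
  have h5 : |(β y - β x0) v v| ≤ ‖β y - β x0‖ * ‖v‖ * ‖v‖ := (β y - β x0).le_opNorm₂ v v
  have h6 : (β y - β x0) v v = β y v v - β x0 v v := rfl
  rw [h6] at h5
  have h7 := (abs_le.1 h5).1
  have h8 : ‖β y - β x0‖ * ‖v‖ * ‖v‖ < c * ‖v‖ ^ 2 := by
    have : 0 < ‖v‖ ^ 2 := by positivity
    nlinarith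
  linarith

/-- The section given in the trivialisation at `x₀` by a continuous family of forms. -/
lemma locForm_cont (x₀ : M) {β : M → E →L[ℝ] E →L[ℝ] ℝ} (hβ : Continuous β) :
    ContMDiffOn 𝓘(ℝ, E) (𝓘(ℝ, E).prod 𝓘(ℝ, E →L[ℝ] E →L[ℝ] ℝ)) 0
      (fun x => Bundle.TotalSpace.mk' (E →L[ℝ] E →L[ℝ] ℝ) x (locForm x₀ (β x) x))
      (trivializationAt E (TangentSpace 𝓘(ℝ, E) : M → Type) x₀).baseSet := by
  set e := trivializationAt E (TangentSpace 𝓘(ℝ, E) : M → Type) x₀ with he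
  set e' := trivializationAt (E →L[ℝ] E →L[ℝ] ℝ) (fun x : M => TangentSpace 𝓘(ℝ, E) x →L[ℝ]
    TangentSpace 𝓘(ℝ, E) x →L[ℝ] ℝ) x₀ with he'
  have hb : e'.baseSet = e.baseSet := by
    simp [he', he]
  rw [← hb]
  refine (Bundle.Trivialization.contMDiffOn_section_baseSet_iff (IB := 𝓘(ℝ, E)) (n := 0)
    (F := E →L[ℝ] E →L[ℝ] ℝ) (E := fun x : M => TangentSpace 𝓘(ℝ, E) x →L[ℝ]
    TangentSpace 𝓘(ℝ, E) x →L[ℝ] ℝ) (s := fun x => locForm x₀ (β x) x) e').2 ?_
  refine ((contMDiff_zero_iff.2 hβ).contMDiffOn).congr fun x hx => ?_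
  rw [hb] at hx
  rw [he', hom_trivializationAt_apply]
  ext v w
  have h1 : ∀ u : E, e.continuousLinearMapAt ℝ x (e.symmL ℝ x u) = u := fun u =>
    e.continuousLinearMapAt_symmL (R := ℝ) hx u
  simp only [ContinuousLinearMap.inCoordinates, ContinuousLinearMap.comp_apply]
  have hx2 : x ∈ (trivializationAt (E →L[ℝ] ℝ) (fun x : M => TangentSpace 𝓘(ℝ, E) x →L[ℝ] ℝ)
      x₀).baseSet := by
    simpa [he] using hx
  rw [Bundle.Trivialization.continuousLinearMapAt_apply, Bundle.Trivialization.linearMapAt_apply,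
    if_pos hx2, hom_trivializationAt_apply]
  simp only [ContinuousLinearMap.inCoordinates, ContinuousLinearMap.comp_apply]
  have h2 : ∀ (y : ℝ), (Bundle.Trivialization.continuousLinearMapAt ℝ (trivializationAt ℝ
      (fun _ : M => ℝ) x₀) x) y = y := fun y => by
    simp
  refine (h2 _).trans ?_
  rw [locForm_apply]
  unfold crd
  rw [h1, h1]

include g in
/-- **Extension.** -/
theorem exists_ext [T2Space M] [CompactSpace M] (hΛ : IsClosed Λ)
    (hG : IsClosed (tot Λ G)) (hF : IsClosed (tot Λ F))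
    (hc : ∀ x : Λ, IsCompl (G x) (F x)) {A : Fam Λ G} {B : Fam Λ F}
    (hA : ∀ x, PD (A x)) (hB : ∀ x, PD (B x)) (hAc : CtsF A) (hBc : CtsF B) :
    ∃ g' : CMetric E M, ∀ (x : Λ) (v w : TangentSpace 𝓘(ℝ, E) (x : M)),
      g'.inner (x : M) v w = dsum hc A B x v w := by
  let t : ∀ x : M, Set (TangentSpace 𝓘(ℝ, E) x →L[ℝ] TangentSpace 𝓘(ℝ, E) x →L[ℝ] ℝ) := fun x =>
    {h | (∀ v w, h v w = h w v) ∧ (∀ v, v ≠ 0 → 0 < h v v) ∧
      ∀ (hx : x ∈ Λ) (v w : TangentSpace 𝓘(ℝ, E) x), h v w = dsum hc A B ⟨x, hx⟩ v w}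
  have hconv : ∀ x, Convex ℝ (t x) := by
    rintro x p ⟨h1, h2, h3⟩ q ⟨h1', h2', h3'⟩ a b ha hb hab
    refine ⟨fun v w => ?_, fun v hv => ?_, fun hx v w => ?_⟩
    · simp only [add_apply, smul_apply]
      rw [h1 v w, h1' v w]
    · simp only [add_apply, smul_apply, smul_eq_mul]
      have p1 := h2 v hv
      have p2 := h2' v hv
      rcases ha.eq_or_lt with rfl | ha'
      · have : b = 1 := by linarith
        rw [this]
        linarith
      · have := mul_pos ha' p1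
        have := mul_nonneg hb p2.le
        linarith
    · simp only [add_apply, smul_apply, smul_eq_mul]
      rw [h3 hx v w, h3' hx v w, ← add_mul, hab, one_mul]
  have hloc : ∀ x₀ : M, ∃ U ∈ 𝓝 x₀, ∃ (s_loc : (x : M) → (TangentSpace 𝓘(ℝ, E) x →L[ℝ]
      TangentSpace 𝓘(ℝ, E) x →L[ℝ] ℝ)),
      (ContMDiffOn 𝓘(ℝ, E) (𝓘(ℝ, E).prod 𝓘(ℝ, E →L[ℝ] E →L[ℝ] ℝ)) 0
        (fun x => Bundle.TotalSpace.mk' (E →L[ℝ] E →L[ℝ] ℝ) x (s_loc x)) U) ∧
        ∀ y ∈ U, s_loc y ∈ t y := by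
    intro x₀
    by_cases hx : x₀ ∈ Λ
    · set e := trivializationAt E (TangentSpace 𝓘(ℝ, E) : M → Type) x₀ with he
      have hb : x₀ ∈ e.baseSet := FiberBundle.mem_baseSet_trivializationAt' _
      obtain ⟨K, hK, hKc, hKb⟩ := exists_mem_nhds_isClosed_subset (e.open_baseSet.mem_nhds hb)
      have hCc : IsClosed (Λ ∩ K) := hΛ.inter hKc
      let f : ↥(Λ ∩ K) → E →L[ℝ] E →L[ℝ] ℝ := fun y =>
        LinearMap.toContinuousLinearMap ((LinearMap.toContinuousLinearMap (𝕜 := ℝ) (E := E)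
          (F' := ℝ)).toLinearMap ∘ₗ ((dsum hc A B ⟨y, y.2.1⟩).compl₁₂
            (e.symmL ℝ (y : M)).toLinearMap (e.symmL ℝ (y : M)).toLinearMap))
      have hf : ∀ y a b, f y a b = dsum hc A B ⟨y, y.2.1⟩ (e.symmL ℝ (y : M) a)
          (e.symmL ℝ (y : M) b) := fun y a b => rfl
      have hfc : Continuous f := by
        rw [continuous_clm_apply]
        intro a
        rw [continuous_clm_apply]
        intro b
        rw [continuous_iff_ultrafilter]
        intro y0 u hu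
        have hl : ∀ a : E, Lim (u : Filter ↥(Λ ∩ K)) (fun y : ↥(Λ ∩ K) => (y : M))
            (fun y => e.symmL ℝ (y : M) a) (y0 : M) (e.symmL ℝ (y0 : M) a) := by
          intro a
          have h1 : ContinuousOn (fun z : M × E => TotalSpace.mk' E z.1 (e.symm z.1 z.2))
              (e.baseSet ×ˢ univ) := e.continuousOn_symm
          have h2 := h1.continuousAt (x := ((y0 : M), a))
            ((e.open_baseSet.prod isOpen_univ).mem_nhds ⟨hKb y0.2.2, mem_univ _⟩)
          have h3 : Tendsto (fun y : ↥(Λ ∩ K) => ((y : M), a)) u (𝓝 ((y0 : M), a)) :=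
            ((continuous_subtype_val.tendsto y0).mono_left hu).prodMk_nhds tendsto_const_nhds
          have h4 := h2.tendsto.comp h3
          unfold Lim
          have e1 : ∀ y : ↥(Λ ∩ K), e.symmL ℝ (y : M) a = e.symm (y : M) a := fun y =>
            Bundle.Trivialization.symmL_apply _ (hKb y.2.2) a
          simp only [e1]
          exact h4
        exact dsum_lim g hG hF hc hAc hBc (x := fun y : ↥(Λ ∩ K) => (⟨y, y.2.1⟩ : Λ))
          (x0 := ⟨y0, y0.2.1⟩) (hl a) (hl b)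
      obtain ⟨ft, hft⟩ := ContinuousMap.exists_restrict_eq hCc ⟨f, hfc⟩
      have hft' : ∀ y : ↥(Λ ∩ K), ft (y : M) = f y := fun y => by
        have := DFunLike.congr_fun hft y
        simpa using this
      let β : M → E →L[ℝ] E →L[ℝ] ℝ := fun y => (1 / 2 : ℝ) • (ft y + (ft y).flip)
      have hβa : ∀ y a b, β y a b = (1 / 2 : ℝ) * (ft y a b + ft y b a) := fun y a b => rfl
      have hβc : Continuous β := by
        have h1 : ∀ a b : E, Continuous fun y => ft y a b := fun a b =>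
          (ft.continuous.clm_apply continuous_const).clm_apply continuous_const
        rw [continuous_clm_apply]
        intro a
        rw [continuous_clm_apply]
        intro b
        simp only [hβa]
        exact ((h1 a b).add (h1 b a)).const_mul _
      have hβf : ∀ (y : M) (hy : y ∈ Λ ∩ K) (a b : E), β y a b =
          dsum hc A B ⟨y, hy.1⟩ (e.symmL ℝ y a) (e.symmL ℝ y b) := by
        intro y hy a b
        rw [hβa, hft' ⟨y, hy⟩, hf, hf]
        have := (dsum_pd hc hA hB ⟨y, hy.1⟩).1 (e.symmL ℝ y a) (e.symmL ℝ y b)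
        simp only
        rw [this]
        ring
      have hβ0 : ∀ v, v ≠ 0 → 0 < β x₀ v v := by
        intro v hv
        rw [hβf x₀ ⟨hx, mem_of_mem_nhds hK⟩]
        apply (dsum_pd hc hA hB ⟨x₀, hx⟩).2
        intro h0
        apply hv
        have h1 := e.continuousLinearMapAt_symmL (R := ℝ) hb v
        rw [h0, map_zero] at h1
        exact h1.symm
      have hop := pd_open hβc.continuousAt hβ0
      refine ⟨_, inter_mem (inter_mem hK (e.open_baseSet.mem_nhds hb)) hop,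
        fun y => locForm x₀ (β y) y, (locForm_cont x₀ hβc).mono
          (inter_subset_left.trans inter_subset_right), ?_⟩
      rintro y ⟨⟨hy1, hy2⟩, hy3⟩
      refine ⟨fun v w => ?_, fun v hv => locForm_pos hy3 hy2 v hv, fun hy v w => ?_⟩
      · rw [locForm_apply, locForm_apply, hβa, hβa, add_comm]
      · rw [locForm_apply, hβf y ⟨hy, hy1⟩]
        have hS : ∀ v : TangentSpace 𝓘(ℝ, E) y, e.symmL ℝ y (crd x₀ y v) = v := fun v =>
          e.symmL_continuousLinearMapAt (R := ℝ) hy2 v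
        rw [hS, hS]
    · refine ⟨Λᶜ, hΛ.isOpen_compl.mem_nhds hx, fun x => g.inner x,
        (contMDiff_zero_iff.2 g.continuous).contMDiffOn,
        fun y hy => ⟨fun v w => g.symm _ _ _, fun v hv => g.pos _ _ hv, fun hy' => absurd hy' hy⟩⟩
  obtain ⟨s, hs⟩ := exists_contMDiffSection_forall_mem_convex_of_local (n := 0) 𝓘(ℝ, E)
    (F_fiber := E →L[ℝ] E →L[ℝ] ℝ)
    (fun x : M => TangentSpace 𝓘(ℝ, E) x →L[ℝ] TangentSpace 𝓘(ℝ, E) x →L[ℝ] ℝ) t hconv hloc
  exact ⟨⟨fun x => s x, fun x => (hs x).1, fun x => (hs x).2.1,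
    fun x => Y331.PH.isVonNBounded_aux (E := E) (s x) (hs x).2.1, s.contMDiff.continuous⟩,
    fun x v w => (hs x).2.2 x.2 v w⟩

end Pool.Agent.X214.AF
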