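import Pool.Agent.X214.AM.Lin

/-!
# Monotonicity of the geometric mean, and domination
-/

set_option autoImplicit false

namespace Pool.Agent.X214.AF

open Module Pool.Agent.X214.AM

variable {W : Type*} [AddCommGroup W] [Module ℝ W]

/-- The Cauchy-Schwarz inequality for the mean. -/
lemma mean_cs {r : ℕ} {A B X : LinearMap.BilinForm ℝ W} (h : IsMean r A B X) (v w : W) :
    X v w ^ 2 ≤ A v v * B w w := by
  obtain ⟨e, b, hb, hA, hB, hX⟩ := h
  rw [diag_apply hA hX, diag_apply hA hA v v, diag_apply hA hB w w]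
  have h1 := Finset.sum_mul_sq_le_sq_mul_sq Finset.univ (fun i => A v (e i))
    (fun i => √(b i) * A w (e i))
  have e1 : ∑ i, A v (e i) * (√(b i) * A w (e i)) = ∑ i, √(b i) * A v (e i) * A w (e i) :=
    Finset.sum_congr rfl fun i _ => by ring
  have e2 : ∑ i, A v (e i) ^ 2 = ∑ i, 1 * A v (e i) * A v (e i) :=
    Finset.sum_congr rfl fun i _ => by ring
  have e3 : ∑ i, (√(b i) * A w (e i)) ^ 2 = ∑ i, b i * A w (e i) * A w (e i) :=
    Finset.sum_congr rfl fun i _ => by
      rw [mul_pow, Real.sq_sqrt (hb i).le]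
      ring
  rw [e1, e2, e3] at h1
  exact h1

/-- Maximality of the mean. -/
lemma mean_max [FiniteDimensional ℝ W] {r : ℕ} (hr : finrank ℝ W = r)
    {C D X Y : LinearMap.BilinForm ℝ W} (hY : IsMean r C D Y) (hXs : ∀ v w, X v w = X w v)
    (hD : PD D) (h : ∀ v w, X v w ^ 2 ≤ C v v * D w w) (v : W) : X v v ≤ Y v v := by
  obtain ⟨u, l, hYu, hXu⟩ := exists_simul hr hY.pd hXs
  obtain ⟨e, b, hb, hC, hDe, hYe⟩ := id hY
  have hY' : IsMean r C D Y := hY
  have hl : ∀ i, l i ≤ 1 := by
    intro i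
    have hXY : ∀ w, X w (u i) = l i * Y w (u i) := by
      intro w
      rw [diag_apply hYu hXu, Finset.sum_eq_single i]
      · rw [hYu, if_pos rfl, mul_one]
      · intro j _ hj
        rw [hYu, if_neg (Ne.symm hj)]
        ring
      · simp
    have hDu := mean_sq hY' hC (u i) (u i)
    set w : W := ∑ j, Y (u i) (e j) • e j with hw
    have h1 : C w w = D (u i) (u i) := by
      rw [hDu, diag_apply hC hC]
      refine Finset.sum_congr rfl fun j _ => ?_
      have : C w (e j) = Y (u i) (e j) := by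
        rw [hw, map_sum, LinearMap.sum_apply, Finset.sum_eq_single j]
        · rw [map_smul, LinearMap.smul_apply, hC, if_pos rfl, smul_eq_mul, mul_one]
        · intro k _ hk
          rw [map_smul, LinearMap.smul_apply, hC, if_neg hk, smul_zero]
        · simp
      rw [this, one_mul]
    have h2 : Y w (u i) = D (u i) (u i) := by
      rw [hDu, hw, map_sum, LinearMap.sum_apply]
      refine Finset.sum_congr rfl fun j _ => ?_
      rw [map_smul, LinearMap.smul_apply, smul_eq_mul, hY.pd.1 (e j) (u i)]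
    have h3 := h w (u i)
    rw [hXY, h1, h2] at h3
    have h4 : 0 < D (u i) (u i) := hD.2 _ (u.ne_zero i)
    by_contra hcon
    push Not at hcon
    have h5 : D (u i) (u i) * D (u i) (u i) < (l i * D (u i) (u i)) ^ 2 := by
      have h6 : D (u i) (u i) < l i * D (u i) (u i) := by nlinarith
      nlinarith
    linarith
  rw [diag_apply hYu hXu, diag_apply hYu hYu]
  refine Finset.sum_le_sum fun i _ => ?_
  nlinarith [hl i, mul_self_nonneg (Y v (u i))]

/-- The mean is monotone. -/
theorem mean_mono [FiniteDimensional ℝ W] {r : ℕ} (hr : finrank ℝ W = r)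
    {A B C D X Y : LinearMap.BilinForm ℝ W} (hX : IsMean r A B X) (hY : IsMean r C D Y)
    (hD : PD D) (h1 : ∀ v, A v v ≤ C v v) (h2 : ∀ v, B v v ≤ D v v) (v : W) :
    X v v ≤ Y v v := by
  refine mean_max hr hY hX.pd.1 hD (fun v w => (mean_cs hX v w).trans ?_) v
  have hA : 0 ≤ A v v := by
    obtain ⟨e, b, hb, hA, -, -⟩ := hX
    rw [diag_apply hA hA]
    exact Finset.sum_nonneg fun i _ => by nlinarith [mul_self_nonneg (A v (e i))]
  have hDw : 0 ≤ D w w := by
    by_cases hw : w = 0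
    · rw [hw]; simp
    · exact (hD.2 w hw).le
  calc A v v * B w w ≤ A v v * D w w := mul_le_mul_of_nonneg_left (h2 w) hA
    _ ≤ C v v * D w w := mul_le_mul_of_nonneg_right (h1 v) hDw

/-- Scaling the second argument. -/
lemma mean_smul_right {r : ℕ} {A B X : LinearMap.BilinForm ℝ W} (h : IsMean r A B X) {c : ℝ}
    (hc : 0 < c) : IsMean r A (c ^ 2 • B) (c • X) := by
  obtain ⟨e, b, hb, hA, hB, hX⟩ := h
  refine ⟨e, fun i => c ^ 2 * b i, fun i => by have := hb i; positivity, hA, fun i j => ?_,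
    fun i j => ?_⟩
  · simp only [LinearMap.smul_apply, hB, smul_eq_mul, mul_ite, mul_zero]
  · simp only [LinearMap.smul_apply, hX, smul_eq_mul, mul_ite, mul_zero]
    rw [Real.sqrt_mul (sq_nonneg c), Real.sqrt_sq hc.le]

/-- Scaling both arguments. -/
lemma mean_smul {r : ℕ} {A B X : LinearMap.BilinForm ℝ W} (h : IsMean r A B X) {c : ℝ}
    (hc : 0 < c) : IsMean r (c • A) (c • B) (c • X) := by
  have h1 := mean_smul_right h (Real.sqrt_pos.2 hc)
  have h2 := mean_smul_right h1.symm (Real.sqrt_pos.2 hc)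
  rw [Real.sq_sqrt hc.le] at h2
  have h3 := h2.symm
  rw [smul_smul, Real.mul_self_sqrt hc.le] at h3
  exact h3

lemma smul_pd {A : LinearMap.BilinForm ℝ W} (hA : PD A) {c : ℝ} (hc : 0 < c) : PD (c • A) := by
  refine ⟨fun v w => ?_, fun v hv => ?_⟩
  · simp only [LinearMap.smul_apply, hA.1 v w]
  · have := hA.2 v hv
    simpa using mul_pos hc this

/-- Contraction passes to the means. -/
lemma contr [FiniteDimensional ℝ W] {r : ℕ} (hr : finrank ℝ W = r)
    {A B C X Y : LinearMap.BilinForm ℝ W} (hX : IsMean r A B X) (hY : IsMean r B C Y)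
    (hA : PD A) {c : ℝ} (hc : 0 < c) (h : ∀ v, C v v ≤ c ^ 2 * A v v) (v : W) :
    Y v v ≤ c * X v v := by
  have h1 := mean_smul_right hX.symm hc
  have h2 := mean_mono hr hY h1 (smul_pd hA (by positivity)) (fun v => le_rfl)
    (fun v => by simpa using h v) v
  simpa using h2

/-- Expansion passes to the means. -/
lemma expan [FiniteDimensional ℝ W] {r : ℕ} (hr : finrank ℝ W = r)
    {A B C X Y : LinearMap.BilinForm ℝ W} (hX : IsMean r A B X) (hY : IsMean r B C Y)
    (hC : PD C) {c : ℝ} (hc : 0 < c) (h : ∀ v, c ^ 2 * A v v ≤ C v v) (v : W) :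
    c * X v v ≤ Y v v := by
  have h1 := mean_smul_right hX.symm hc
  have h2 := mean_mono hr h1 hY hC (fun v => le_rfl) (fun v => by simpa using h v) v
  simpa using h2

/-- **Domination passes to the means.** -/
theorem domin {V : Type*} [AddCommGroup V] [Module ℝ V] [FiniteDimensional ℝ V]
    [FiniteDimensional ℝ W] {r s : ℕ} (hr : finrank ℝ V = r) (hs : finrank ℝ W = s)
    {A B C X Y : LinearMap.BilinForm ℝ V} (hX : IsMean r A B X) (hY : IsMean r B C Y)
    {A' B' C' X' Y' : LinearMap.BilinForm ℝ W} (hX' : IsMean s A' B' X') (hY' : IsMean s B' C' Y')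
    (hA : PD A) (hA' : PD A') (hC' : PD C') {c : ℝ} (hc : 0 < c)
    (h : ∀ v w, C v v * A' w w ≤ c ^ 2 * A v v * C' w w) (v : V) (w : W) :
    Y v v * X' w w ≤ c * X v v * Y' w w := by
  by_cases hw : w = 0
  · rw [hw]; simp
  obtain ⟨e, q, h1, h2⟩ := exists_simul hs hA' hC'.1
  have hq : ∀ i, 0 < q i := fun i => by
    have := hC'.2 (e i) (e.ne_zero i)
    rwa [h2, if_pos rfl] at this
  have hne : Nonempty (Fin s) := by
    by_contra hcon
    rw [not_nonempty_iff] at hcon
    apply hw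
    rw [← e.sum_repr w]
    simp
  obtain ⟨i0, hi0⟩ := Finite.exists_min q
  have h3 : ∀ w, √(q i0) ^ 2 * A' w w ≤ C' w w := by
    intro w
    rw [Real.sq_sqrt (hq i0).le, diag_apply h1 h1, diag_apply h1 h2, Finset.mul_sum]
    refine Finset.sum_le_sum fun i _ => ?_
    nlinarith [hi0 i, mul_self_nonneg (A' w (e i))]
  have h4 : ∀ v, C v v ≤ (c * √(q i0)) ^ 2 * A v v := by
    intro v
    have := h v (e i0)
    rw [h1, h2, if_pos rfl, if_pos rfl] at this
    rw [mul_pow, Real.sq_sqrt (hq i0).le]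
    linarith
  have hsq : 0 < √(q i0) := Real.sqrt_pos.2 (hq i0)
  have h5 := contr hr hX hY hA (mul_pos hc hsq) h4 v
  have h6 := expan hs hX' hY' hC' hsq h3 w
  have h7 : 0 ≤ X v v := by
    by_cases hv : v = 0
    · rw [hv]; simp
    · exact (hX.pd.2 v hv).le
  have h8 : 0 ≤ X' w w := (hX'.pd.2 w hw).le
  calc Y v v * X' w w ≤ (c * √(q i0) * X v v) * X' w w := mul_le_mul_of_nonneg_right h5 h8
    _ = c * X v v * (√(q i0) * X' w w) := by ring
    _ ≤ c * X v v * Y' w w := mul_le_mul_of_nonneg_left h6 (by positivity)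

/-- The mean of two close forms is close to the first one. -/
lemma mean_near {r : ℕ} {A B X : LinearMap.BilinForm ℝ W} (h : IsMean r A B X) {c : ℝ}
    (hc : 0 < c) (h1 : ∀ v, B v v ≤ c ^ 2 * A v v) (h2 : ∀ v, A v v ≤ c ^ 2 * B v v) (v : W) :
    X v v ≤ c * A v v ∧ A v v ≤ c * X v v := by
  obtain ⟨e, b, hb, hA, hB, hX⟩ := h
  have hb1 : ∀ i, √(b i) ≤ c := fun i => by
    have := h1 (e i)
    rw [hA, hB, if_pos rfl, if_pos rfl, mul_one] at this
    exact Real.sqrt_le_iff.2 ⟨hc.le, this⟩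
  have hb2 : ∀ i, 1 ≤ c * √(b i) := fun i => by
    have := h2 (e i)
    rw [hA, hB, if_pos rfl, if_pos rfl] at this
    have h3 : √(b i) ^ 2 = b i := Real.sq_sqrt (hb i).le
    have h4 : 0 < √(b i) := Real.sqrt_pos.2 (hb i)
    by_contra hcon
    push Not at hcon
    have h5 : 0 < c * √(b i) := by positivity
    have h6 : (c * √(b i)) ^ 2 < 1 := by nlinarith
    rw [mul_pow, h3] at h6
    linarith
  rw [diag_apply hA hX, diag_apply hA hA, Finset.mul_sum, Finset.mul_sum]
  constructor
  · refine Finset.sum_le_sum fun i _ => ?_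
    nlinarith [hb1 i, mul_self_nonneg (A v (e i))]
  · refine Finset.sum_le_sum fun i _ => ?_
    nlinarith [hb2 i, mul_self_nonneg (A v (e i))]

end Pool.Agent.X214.AF
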