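import Pool.Agent.X214.AM.Fam
import Pool.Agent.X214.AM.Defs
import Pool.Agent.X214.AF.Lin

/-!
# Continuous families of scalar products on a subbundle over a compact set: continuous metrics
-/

set_option autoImplicit false

open scoped Manifold ContDiff Topology Bundle
open Set Filter Bundle

namespace Pool.Agent.X214.AF

open Pool.Agent.X214.AM

variable {E : Type} [NormedAddCommGroup E] [NormedSpace ℝ E]
  {M : Type} [TopologicalSpace M] [ChartedSpace E M] [IsManifold 𝓘(ℝ, E) ∞ M]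

/-- The continuous Riemannian metrics on `M`. -/
abbrev CMetric (E M : Type) [NormedAddCommGroup E] [NormedSpace ℝ E] [TopologicalSpace M]
    [ChartedSpace E M] [IsManifold 𝓘(ℝ, E) ∞ M] : Type :=
  ContinuousRiemannianMetric E (TangentSpace 𝓘(ℝ, E) : M → Type)

/-- The scalar product of convergent tangent vectors converges. -/
lemma tendsto_inner (g : CMetric E M)
    {ι : Type} {u : Filter ι} {x : ι → M} {v w : ∀ i, TangentSpace 𝓘(ℝ, E) (x i)} {x0 : M}
    {v0 w0 : TangentSpace 𝓘(ℝ, E) x0} (hv : Lim u x v x0 v0) (hw : Lim u x w x0 w0) :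
    Tendsto (fun i => g.inner (x i) (v i) (w i)) u (𝓝 (g.inner x0 v0 w0)) := by
  set e := trivializationAt E (TangentSpace 𝓘(ℝ, E) : M → Type) x0 with he
  have hb : x0 ∈ e.baseSet := FiberBundle.mem_baseSet_trivializationAt' x0
  let g' : M → E →L[ℝ] E →L[ℝ] ℝ := fun y =>
    ContinuousLinearMap.inCoordinates E (TangentSpace 𝓘(ℝ, E) : M → Type) (E →L[ℝ] ℝ)
      (fun x => TangentSpace 𝓘(ℝ, E) x →L[ℝ] ℝ) x0 y x0 y (g.inner y)
  have hg' : ContinuousAt g' x0 := by
    have W := g.continuous.continuousAt (x := x0)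
    simp only [continuousAt_hom_bundle] at W
    exact W.2
  have key : ∀ y ∈ e.baseSet, ∀ a b : TangentSpace 𝓘(ℝ, E) y,
      g.inner y a b = g' y (crd x0 y a) (crd x0 y b) := by
    intro y hy a b
    simp only [g']
    rw [inCoordinates_apply_eq₂ hy hy (Set.mem_univ _)]
    have A : ∀ a : TangentSpace 𝓘(ℝ, E) y, e.symm y (crd x0 y a) = a := by
      intro a
      have := e.symmL_continuousLinearMapAt (R := ℝ) hy a
      rwa [Bundle.Trivialization.symmL_apply _ hy] at this
    rw [A, A]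
    simp
  rw [lim_iff] at hv hw
  have h1 : Tendsto (fun i => g' (x i)) u (𝓝 (g' x0)) := hg'.tendsto.comp hv.1
  have h2 := (isBoundedBilinearMap_apply (𝕜 := ℝ) (E := E) (F := ℝ)).continuous.tendsto
    (g' x0 (crd x0 x0 v0), crd x0 x0 w0) |>.comp
    (((isBoundedBilinearMap_apply (𝕜 := ℝ) (E := E) (F := E →L[ℝ] ℝ)).continuous.tendsto
      (g' x0, crd x0 x0 v0) |>.comp (h1.prodMk_nhds hv.2)).prodMk_nhds hw.2)
  rw [key x0 hb]
  refine h2.congr' ?_
  filter_upwards [hv.1.eventually (e.open_baseSet.mem_nhds hb)] with i hi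
  exact (key _ hi _ _).symm

lemma lim_add {ι : Type} {u : Filter ι} {x : ι → M} {v w : ∀ i, TangentSpace 𝓘(ℝ, E) (x i)} {x0 : M}
    {v0 w0 : TangentSpace 𝓘(ℝ, E) x0} (hv : Lim u x v x0 v0) (hw : Lim u x w x0 w0) :
    Lim u x (fun i => v i + w i) x0 (v0 + w0) := by
  rw [lim_iff] at hv hw ⊢
  refine ⟨hv.1, ?_⟩
  have := hv.2.add hw.2
  unfold crd at this ⊢
  simpa only [map_add] using this

lemma lim_smul {ι : Type} {u : Filter ι} {x : ι → M} {v : ∀ i, TangentSpace 𝓘(ℝ, E) (x i)} {x0 : M}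
    {v0 : TangentSpace 𝓘(ℝ, E) x0} {c : ι → ℝ} {c0 : ℝ} (hc : Tendsto c u (𝓝 c0))
    (hv : Lim u x v x0 v0) : Lim u x (fun i => c i • v i) x0 (c0 • v0) := by
  rw [lim_iff] at hv ⊢
  refine ⟨hv.1, ?_⟩
  have := hc.smul hv.2
  unfold crd at this ⊢
  simpa only [map_smul] using this

lemma lim_unique {ι : Type} {u : Filter ι} [u.NeBot] {x : ι → M}
    {v : ∀ i, TangentSpace 𝓘(ℝ, E) (x i)} {x0 : M}
    {v0 v1 : TangentSpace 𝓘(ℝ, E) x0} (hv : Lim u x v x0 v0) (hw : Lim u x v x0 v1) :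
    v0 = v1 := by
  rw [lim_iff] at hv hw
  have h := tendsto_nhds_unique hv.2 hw.2
  set e := trivializationAt E (TangentSpace 𝓘(ℝ, E) : M → Type) x0 with he
  have hb : x0 ∈ e.baseSet := FiberBundle.mem_baseSet_trivializationAt' x0
  have A : ∀ a : TangentSpace 𝓘(ℝ, E) x0, e.symmL ℝ x0 (crd x0 x0 a) = a := fun a =>
    e.symmL_continuousLinearMapAt (R := ℝ) hb a
  rw [← A v0, h, A]

variable [FiniteDimensional ℝ E]

/-- Bounded sequences of tangent vectors converge along an ultrafilter. -/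
lemma exists_lim (g : CMetric E M)
    {ι : Type} {u : Ultrafilter ι} {x : ι → M} {v : ∀ i, TangentSpace 𝓘(ℝ, E) (x i)} {x0 : M}
    (hx : Tendsto x u (𝓝 x0)) {R : ℝ} (hR : ∀ᶠ i in (u : Filter ι), g.inner (x i) (v i) (v i) ≤ R) :
    ∃ v0 : TangentSpace 𝓘(ℝ, E) x0, Lim (u : Filter ι) x v x0 v0 := by
  have : ProperSpace E := FiniteDimensional.proper ℝ E
  set e := trivializationAt E (TangentSpace 𝓘(ℝ, E) : M → Type) x0 with he
  have hb : x0 ∈ e.baseSet := FiberBundle.mem_baseSet_trivializationAt' x0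
  obtain ⟨C, hC⟩ : ∃ C : ℝ, ∀ᶠ i in (u : Filter ι), ‖crd x0 (x i) (v i)‖ ≤ C := by
    let _ : RiemannianBundle (fun x : M => TangentSpace 𝓘(ℝ, E) x) := ⟨g.toRiemannianMetric⟩
    obtain ⟨C, hC0, hC⟩ := eventually_norm_trivializationAt_lt E
      (TangentSpace 𝓘(ℝ, E) : M → Type) x0
    refine ⟨C * √R, ?_⟩
    filter_upwards [hx.eventually hC, hR] with i hi hi2
    have h1 : ‖v i‖ ≤ √R := by
      rw [norm_eq_sqrt_real_inner]
      exact Real.sqrt_le_sqrt hi2
    calc ‖crd x0 (x i) (v i)‖ ≤ ‖e.continuousLinearMapAt ℝ (x i)‖ * ‖v i‖ :=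
          ContinuousLinearMap.le_opNorm _ _
      _ ≤ C * √R := by gcongr
  have hm : Metric.closedBall (0 : E) C ∈ Ultrafilter.map (fun i => crd x0 (x i) (v i)) u := by
    rw [Ultrafilter.mem_map]
    filter_upwards [hC] with i hi
    simpa using hi
  obtain ⟨a, -, ha⟩ := (isCompact_closedBall (0 : E) C).ultrafilter_le_nhds'
    (Ultrafilter.map (fun i => crd x0 (x i) (v i)) u) hm
  refine ⟨e.symmL ℝ x0 a, ?_⟩
  rw [lim_iff]
  refine ⟨hx, ?_⟩
  have h1 : crd x0 x0 (e.symmL ℝ x0 a) = a := e.continuousLinearMapAt_symmL (R := ℝ) hb a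
  rw [h1]
  exact ha

variable {Λ : Set M} {F : ∀ x : M, Submodule ℝ (TangentSpace 𝓘(ℝ, E) x)}

/-- Convergence of vectors of `F`. -/
def LimF {ι : Type} (u : Filter ι) (x : ι → Λ) (v : ∀ i, F (x i)) (x0 : Λ) (v0 : F x0) : Prop :=
  Lim u (fun i => (x i : M)) (fun i => (v i : TangentSpace 𝓘(ℝ, E) (x i : M))) x0 v0

/-- Continuity of a family of forms. -/
def CtsF (h : Fam Λ F) : Prop :=
  ∀ (ι : Type) (u : Ultrafilter ι) (x : ι → Λ) (v w : ∀ i, F (x i)) (x0 : Λ) (v0 w0 : F x0),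
    LimF (u : Filter ι) x v x0 v0 → LimF (u : Filter ι) x w x0 w0 →
    Tendsto (fun i => h (x i) (v i) (w i)) u (𝓝 (h x0 v0 w0))

/-- The restriction of a Riemannian metric to `F`. -/
noncomputable def resF (Λ : Set M) (F : ∀ x : M, Submodule ℝ (TangentSpace 𝓘(ℝ, E) x))
    (g : CMetric E M) : Fam Λ F :=
  fun x => LinearMap.mk₂ ℝ (fun v w : F x => g.inner (x : M) (v : TangentSpace 𝓘(ℝ, E) (x : M)) w)
    (fun u v w => by simp) (fun c v w => by simp) (fun u v w => by simp) (fun c v w => by simp)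

variable (g : CMetric E M)

lemma resF_apply (x : Λ) (v w : F x) :
    resF Λ F g x v w = g.inner (x : M) (v : TangentSpace 𝓘(ℝ, E) (x : M)) w := rfl

lemma resF_pd (x : Λ) : PD (resF Λ F g x) := by
  refine ⟨fun v w => g.symm _ _ _, fun v hv => g.pos _ _ ?_⟩
  intro h
  exact hv (Subtype.ext h)

lemma resF_cts : CtsF (resF Λ F g) := fun _ _ _ _ _ _ _ _ hv hw => tendsto_inner g hv hw

lemma mem_of_lim (hF : IsClosed (tot Λ F)) {ι : Type} {u : Filter ι} [u.NeBot] {x : ι → Λ}
    {w : ∀ i, F (x i)} {x0 : Λ} {w0 : TangentSpace 𝓘(ℝ, E) (x0 : M)}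
    (hw : Lim u (fun i => (x i : M)) (fun i => (w i : TangentSpace 𝓘(ℝ, E) (x i : M))) x0 w0) :
    w0 ∈ F x0 := by
  have := hF.mem_of_tendsto hw (Eventually.of_forall fun i => ⟨(x i).2, (w i).2⟩)
  exact this.2

/-- Bounded vectors of `F` converge. -/
lemma exists_limF (hF : IsClosed (tot Λ F)) {ι : Type} {u : Ultrafilter ι} {x : ι → Λ}
    {v : ∀ i, F (x i)} {x0 : Λ} (hx : Tendsto (fun i => (x i : M)) u (𝓝 (x0 : M))) {R : ℝ}
    (hR : ∀ᶠ i in (u : Filter ι), resF Λ F g (x i) (v i) (v i) ≤ R) :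
    ∃ v0 : F x0, LimF (u : Filter ι) x v x0 v0 := by
  obtain ⟨v0, hv0⟩ := exists_lim g (v := fun i => (v i : TangentSpace 𝓘(ℝ, E) (x i : M))) hx hR
  exact ⟨⟨v0, mem_of_lim hF hv0⟩, hv0⟩

include g in
/-- Vectors of `F` of length one for a continuous family of scalar products converge along
ultrafilters. -/
lemma exists_lim_fam (hF : IsClosed (tot Λ F)) {A : Fam Λ F} (hA : ∀ x, PD (A x)) (hc : CtsF A)
    {ι : Type} {u : Ultrafilter ι} {x : ι → Λ} {v : ∀ i, F (x i)} {x0 : Λ}
    (hx : Tendsto (fun i => (x i : M)) u (𝓝 (x0 : M)))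
    (h1 : ∀ᶠ i in (u : Filter ι), A (x i) (v i) (v i) = 1) :
    ∃ v0 : F x0, LimF (u : Filter ι) x v x0 v0 := by
  by_cases hR : ∃ R : ℝ, ∀ᶠ i in (u : Filter ι), resF Λ F g (x i) (v i) (v i) ≤ R
  · obtain ⟨R, hR⟩ := hR
    exact exists_limF g hF hx hR
  · exfalso
    push Not at hR
    have hR' : ∀ R : ℝ, ∀ᶠ i in (u : Filter ι), R < resF Λ F g (x i) (v i) (v i) := hR
    set s : ι → ℝ := fun i => resF Λ F g (x i) (v i) (v i) with hs
    have hsinf : Tendsto s u atTop := tendsto_atTop.2 fun R => by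
      filter_upwards [hR' R] with i hi
      exact hi.le
    let w : ∀ i, F (x i) := fun i => (√(s i))⁻¹ • v i
    have hw1 : ∀ᶠ i in (u : Filter ι), resF Λ F g (x i) (w i) (w i) = 1 := by
      filter_upwards [hR' 0] with i hi
      have h3 : √(s i) * √(s i) = s i := Real.mul_self_sqrt hi.le
      have h4 : s i ≠ 0 := hi.ne'
      calc resF Λ F g (x i) (w i) (w i) = (√(s i))⁻¹ * ((√(s i))⁻¹ * s i) := by
            simp only [w, map_smul, LinearMap.smul_apply, smul_eq_mul]
            rfl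
        _ = (√(s i) * √(s i))⁻¹ * s i := by
            rw [mul_inv]
            ring
        _ = 1 := by rw [h3, inv_mul_cancel₀ h4]
    obtain ⟨w0, hw0⟩ := exists_limF g hF (v := w) hx (hw1.mono fun i hi => hi.le)
    have h5 := resF_cts g ι u x w w x0 w0 w0 hw0 hw0
    have h6 : resF Λ F g x0 w0 w0 = 1 :=
      tendsto_nhds_unique h5 (tendsto_const_nhds.congr' (hw1.mono fun i hi => hi.symm))
    have h7 := hc ι u x w w x0 w0 w0 hw0 hw0
    have h8 : Tendsto (fun i => A (x i) (w i) (w i)) u (𝓝 0) := by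
      refine (tendsto_inv_atTop_zero.comp hsinf).congr' ?_
      filter_upwards [h1, hR' 0] with i hi hi0
      have h3 : √(s i) * √(s i) = s i := Real.mul_self_sqrt hi0.le
      simp only [w, map_smul, LinearMap.smul_apply, smul_eq_mul, hi, mul_one, Function.comp_apply]
      rw [← mul_inv, h3]
    have h9 : A x0 w0 w0 = 0 := tendsto_nhds_unique h7 h8
    have h10 : w0 = 0 := by
      by_contra h
      exact ((hA x0).2 _ h).ne' h9
    rw [h10] at h6
    simp at h6

include g in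
/-- The mean of two continuous families is continuous. -/
theorem cts_mean {r : ℕ} (hF : IsClosed (tot Λ F)) (hr : ∀ x : Λ, Module.finrank ℝ (F x) = r)
    {A B X : Fam Λ F} (hA : ∀ x, PD (A x))
    (hB : ∀ x, PD (B x)) (hAc : CtsF A) (hBc : CtsF B)
    (hX : ∀ x, IsMean r (A x) (B x) (X x)) : CtsF X := by
  intro ι u x v w x0 v0 w0 hv hw
  have hX' := hX
  choose e b hb hAe hBe hXe using hX
  have hx : Tendsto (fun i => (x i : M)) u (𝓝 (x0 : M)) := (lim_iff.1 hv).1
  have hq : ∀ j : Fin r, ∃ q : F x0, LimF (u : Filter ι) x (fun i => e (x i) j) x0 q := fun j =>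
    exists_lim_fam g hF hA hAc (v := fun i => e (x i) j) hx
      (Eventually.of_forall fun i => by rw [hAe, if_pos rfl])
  choose q hq using hq
  have hAq : ∀ i j, A x0 (q i) (q j) = if i = j then 1 else 0 := by
    intro i j
    have := hAc ι u x (fun l => e (x l) i) (fun l => e (x l) j) x0 (q i) (q j) (hq i) (hq j)
    simp only [hAe] at this
    exact tendsto_nhds_unique this tendsto_const_nhds
  have hBlim : ∀ i j, Tendsto (fun l => if i = j then b (x l) i else 0) u
      (𝓝 (B x0 (q i) (q j))) := by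
    intro i j
    have := hBc ι u x (fun l => e (x l) i) (fun l => e (x l) j) x0 (q i) (q j) (hq i) (hq j)
    simpa only [hBe] using this
  have hBq : ∀ i j, B x0 (q i) (q j) = if i = j then B x0 (q i) (q i) else 0 := by
    intro i j
    by_cases h : i = j
    · subst h
      rw [if_pos rfl]
    · rw [if_neg h]
      have := hBlim i j
      simp only [if_neg h] at this
      exact tendsto_nhds_unique this tendsto_const_nhds
  have hblim : ∀ j, Tendsto (fun l => b (x l) j) u (𝓝 (B x0 (q j) (q j))) := by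
    intro j
    have := hBlim j j
    simpa using this
  have hqne : ∀ j, q j ≠ 0 := by
    intro j h
    have := hAq j j
    rw [h] at this
    simp at this
  have hli : LinearIndependent ℝ q := by
    rw [Fintype.linearIndependent_iff]
    intro c hc j
    have h1 : A x0 (∑ i, c i • q i) (q j) = 0 := by rw [hc]; simp
    simpa [hAq] using h1
  let q' : Module.Basis (Fin r) ℝ (F x0) := Module.Basis.mk hli
    (hli.span_eq_top_of_card_eq_finrank' (by rw [hr x0]; simp)).ge
  have hq' : ∀ j, q' j = q j := fun j => by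
    simp [q']
  have hXq := (hX' x0).apply_of_diag (e' := q') (b' := fun j => B x0 (q j) (q j))
    (fun j => (hB x0).2 _ (hqne j)) (fun i j => by rw [hq', hq', hAq]) (fun i j => by
      rw [hq', hq', hBq])
  rw [diag_apply (A := A x0) (e := q') (fun i j => by rw [hq', hq', hAq]) hXq]
  have h2 : ∀ l, X (x l) (v l) (w l) =
      ∑ j, √(b (x l) j) * A (x l) (v l) (e (x l) j) * A (x l) (w l) (e (x l) j) := fun l =>
    diag_apply (hAe (x l)) (hXe (x l)) _ _
  simp only [h2, hq']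
  refine tendsto_finsetSum _ fun j _ => ?_
  exact (((Real.continuous_sqrt.tendsto _).comp (hblim j)).mul
    (hAc ι u x v (fun l => e (x l) j) x0 v0 (q j) hv (hq j))).mul
    (hAc ι u x w (fun l => e (x l) j) x0 w0 (q j) hw (hq j))

/-- Continuity can be checked on squares. -/
lemma cts_of_sq {A : Fam Λ F} (hs : ∀ x v w, A x v w = A x w v)
    (h : ∀ (ι : Type) (u : Ultrafilter ι) (x : ι → Λ) (v : ∀ i, F (x i)) (x0 : Λ) (v0 : F x0),
      LimF (u : Filter ι) x v x0 v0 →
      Tendsto (fun i => A (x i) (v i) (v i)) u (𝓝 (A x0 v0 v0))) : CtsF A := by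
  intro ι u x v w x0 v0 w0 hv hw
  have hvw : LimF (u : Filter ι) x (fun i => v i + w i) x0 (v0 + w0) := lim_add hv hw
  have h1 := h ι u x _ x0 _ hvw
  have h2 := h ι u x _ x0 _ hv
  have h3 := h ι u x _ x0 _ hw
  have h4 : ∀ (x : Λ) (v w : F x), A x v w = (A x (v + w) (v + w) - A x v v - A x w w) / 2 := by
    intro x v w
    simp only [map_add, LinearMap.add_apply]
    rw [hs x w v]
    ring
  rw [h4 x0]
  simp only [h4 (x _) (v _) (w _)]
  exact ((h1.sub h2).sub h3).div_const 2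

end Pool.Agent.X214.AF
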