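import Pool.Agent.X214.AF.Coc
import Pool.Agent.X214.AF.Defs
import Pool.Agent.X214.AF.Reg

/-!
# The cocycle of a flow
-/

set_option autoImplicit false
set_option linter.unusedSectionVars false

open scoped Manifold ContDiff Topology Bundle
open Set Filter Bundle

namespace Pool.Agent.X214.AF

open Pool.Agent.X214.AM (Lim crd lim_iff IsSubbundle tot)

variable {E : Type} [NormedAddCommGroup E] [NormedSpace ℝ E] [FiniteDimensional ℝ E]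
  {M : Type} [TopologicalSpace M] [ChartedSpace E M] [IsManifold 𝓘(ℝ, E) ∞ M]
  {φ : ℝ → M → M}

/-- Joint continuity of the derivative of a flow. -/
lemma lim_flow (hreg : ContMDiff (𝓘(ℝ, E).prod 𝓘(ℝ, ℝ)) 𝓘(ℝ, E) 1 (fun p : M × ℝ => φ p.2 p.1))
    {ι : Type} {u : Filter ι} {t : ι → ℝ} {x : ι → M} {v : ∀ i, TangentSpace 𝓘(ℝ, E) (x i)}
    {t0 : ℝ} {x0 : M} {v0 : TangentSpace 𝓘(ℝ, E) x0} (ht : Tendsto t u (𝓝 t0))
    (hv : Lim u x v x0 v0) :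
    Lim u (fun i => φ (t i) (x i)) (fun i => D φ (t i) (x i) (v i)) (φ t0 x0) (D φ t0 x0 v0) := by
  rw [lim_iff] at hv ⊢
  have hpt : Tendsto (fun i => (x i, t i)) u (𝓝 (x0, t0)) := hv.1.prodMk_nhds ht
  have h1 : Tendsto (fun i => φ (t i) (x i)) u (𝓝 (φ t0 x0)) :=
    (hreg.continuous.tendsto (x0, t0)).comp hpt
  refine ⟨h1, ?_⟩
  set A := inTangentCoordinates 𝓘(ℝ, E) 𝓘(ℝ, E) (fun p : M × ℝ => p.1)
    (fun p : M × ℝ => φ p.2 p.1) (fun p : M × ℝ => mfderiv 𝓘(ℝ, E) 𝓘(ℝ, E) (φ p.2) p.1) (x0, t0)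
    with hA
  have hAc : ContinuousAt A (x0, t0) := by
    have h2 := ContMDiffAt.mfderiv (J := 𝓘(ℝ, E).prod 𝓘(ℝ, ℝ)) (I := 𝓘(ℝ, E)) (I' := 𝓘(ℝ, E))
      (m := 0) (n := 1) (x₀ := (x0, t0)) (fun p : M × ℝ => φ p.2) (fun p : M × ℝ => p.1) (by
        have h3 : ContMDiff ((𝓘(ℝ, E).prod 𝓘(ℝ, ℝ)).prod 𝓘(ℝ, E)) (𝓘(ℝ, E).prod 𝓘(ℝ, ℝ)) 1
            (fun q : (M × ℝ) × M => (q.2, q.1.2)) :=
          contMDiff_snd.prodMk (contMDiff_snd.comp contMDiff_fst)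
        exact (hreg.comp h3).contMDiffAt) contMDiff_fst.contMDiffAt (by norm_num)
    exact h2.continuousAt
  have hAl := (hAc.tendsto.comp hpt)
  have key : ∀ (y : M) (s : ℝ),
      y ∈ (trivializationAt E (TangentSpace 𝓘(ℝ, E) : M → Type) x0).baseSet →
      ∀ a : TangentSpace 𝓘(ℝ, E) y,
      crd (φ t0 x0) (φ s y) (D φ s y a) = A (y, s) (crd x0 y a) := by
    intro y s hy a
    simp only [hA, inTangentCoordinates, ContinuousLinearMap.inCoordinates,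
      ContinuousLinearMap.comp_apply]
    have h4 : (trivializationAt E (TangentSpace 𝓘(ℝ, E) : M → Type) x0).symmL ℝ y (crd x0 y a) =
        a := (trivializationAt E (TangentSpace 𝓘(ℝ, E) : M → Type)
          x0).symmL_continuousLinearMapAt (R := ℝ) hy a
    rw [h4]
    rfl
  have hb : x0 ∈ (trivializationAt E (TangentSpace 𝓘(ℝ, E) : M → Type) x0).baseSet :=
    FiberBundle.mem_baseSet_trivializationAt' x0
  rw [key x0 t0 hb]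
  have h5 := (isBoundedBilinearMap_apply (𝕜 := ℝ) (E := E) (F := E)).continuous.tendsto
    (A (x0, t0), crd x0 x0 v0) |>.comp (hAl.prodMk_nhds hv.2)
  refine h5.congr' ?_
  filter_upwards [hv.1.eventually ((trivializationAt E
    (TangentSpace 𝓘(ℝ, E) : M → Type) x0).open_baseSet.mem_nhds hb)] with i hi
  exact (key _ _ hi _).symm

variable [T2Space M] {X : ∀ x : M, TangentSpace 𝓘(ℝ, E) x}

lemma IsFlow.reg (hX : ContMDiff 𝓘(ℝ, E) 𝓘(ℝ, E).tangent 1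
    (fun x => (⟨x, X x⟩ : TangentBundle 𝓘(ℝ, E) M))) (h : IsFlow X φ) :
    ContMDiff (𝓘(ℝ, E).prod 𝓘(ℝ, ℝ)) 𝓘(ℝ, E) 1 (fun p : M × ℝ => φ p.2 p.1) :=
  contMDiff_flow (Fl := fun x t => φ t x) hX h.zero h.curve

lemma IsFlow.add (hX : ContMDiff 𝓘(ℝ, E) 𝓘(ℝ, E).tangent 1
    (fun x => (⟨x, X x⟩ : TangentBundle 𝓘(ℝ, E) M))) (h : IsFlow X φ) (s t : ℝ) :
    φ (s + t) = φ s ∘ φ t := by
  funext x
  have := flow_add (Fl := fun x t => φ t x) hX h.zero h.curve x t s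
  rw [add_comm]
  exact this

lemma time_reg (hreg : ContMDiff (𝓘(ℝ, E).prod 𝓘(ℝ, ℝ)) 𝓘(ℝ, E) 1
    (fun p : M × ℝ => φ p.2 p.1)) (t : ℝ) : ContMDiff 𝓘(ℝ, E) 𝓘(ℝ, E) 1 (φ t) :=
  hreg.comp (contMDiff_id.prodMk contMDiff_const)

variable {Λ : Set M} {F : ∀ x : M, Submodule ℝ (TangentSpace 𝓘(ℝ, E) x)}

/-- The derivative of the flow on the total space. -/
noncomputable def TT (φ : ℝ → M → M) (t : ℝ) (p : TangentBundle 𝓘(ℝ, E) M) :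
    TangentBundle 𝓘(ℝ, E) M := ⟨φ t p.1, D φ t p.1 p.2⟩

lemma TT_zero (h0 : φ 0 = id) (p : TangentBundle 𝓘(ℝ, E) M) : TT φ 0 p = p := by
  have h1 : tangentMap 𝓘(ℝ, E) 𝓘(ℝ, E) (φ 0) = id := by
    rw [h0]
    exact tangentMap_id
  exact congrFun h1 p

lemma TT_add (hreg : ContMDiff (𝓘(ℝ, E).prod 𝓘(ℝ, ℝ)) 𝓘(ℝ, E) 1
    (fun p : M × ℝ => φ p.2 p.1)) {s t : ℝ} (hadd : φ (s + t) = φ s ∘ φ t)
    (p : TangentBundle 𝓘(ℝ, E) M) : TT φ (s + t) p = TT φ s (TT φ t p) := by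
  have h1 : tangentMap 𝓘(ℝ, E) 𝓘(ℝ, E) (φ (s + t)) p =
      tangentMap 𝓘(ℝ, E) 𝓘(ℝ, E) (φ s) (tangentMap 𝓘(ℝ, E) 𝓘(ℝ, E) (φ t) p) := by
    rw [hadd]
    exact tangentMap_comp_at p ((time_reg hreg s).mdifferentiableAt (by norm_num))
      ((time_reg hreg t).mdifferentiableAt (by norm_num))
  exact h1

lemma D_inj (hreg : ContMDiff (𝓘(ℝ, E).prod 𝓘(ℝ, ℝ)) 𝓘(ℝ, E) 1
    (fun p : M × ℝ => φ p.2 p.1)) (h0 : φ 0 = id) (hadd : ∀ s t, φ (s + t) = φ s ∘ φ t) (t : ℝ)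
    (x : M) : Function.Injective (D (E := E) φ t x).toLinearMap := by
  intro v w h
  have h1 : TT φ t (⟨x, v⟩ : TangentBundle 𝓘(ℝ, E) M) = TT φ t ⟨x, w⟩ := by
    unfold TT
    have h' : D φ t x v = D φ t x w := h
    simp only
    rw [h']
  have h2 := congrArg (TT φ (-t)) h1
  rw [← TT_add hreg (hadd _ _), ← TT_add hreg (hadd _ _), neg_add_cancel, TT_zero h0,
    TT_zero h0] at h2
  rw [TotalSpace.mk.injEq] at h2
  exact eq_of_heq h2.2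

/-- The cocycle given by the derivative of the flow. -/
noncomputable def mkCoc (hreg : ContMDiff (𝓘(ℝ, E).prod 𝓘(ℝ, ℝ)) 𝓘(ℝ, E) 1
    (fun p : M × ℝ => φ p.2 p.1)) (h0 : φ 0 = id) (hadd : ∀ s t, φ (s + t) = φ s ∘ φ t)
    (hΛ : ∀ t, ∀ x ∈ Λ, φ t x ∈ Λ)
    (hF : ∀ t, ∀ x ∈ Λ, (F x).map (D φ t x).toLinearMap = F (φ t x)) :
    Coc Λ F (fun t x => (⟨φ t x, hΛ t x x.2⟩ : Λ)) where
  L := fun t x => (Submodule.equivMapOfInjective (D φ t (x : M)).toLinearMap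
    (D_inj hreg h0 hadd t x) (F x)).trans (LinearEquiv.ofEq _ _ (hF t x x.2))
  zero := fun x v => TT_zero h0 (pt x v)
  add := fun s t x v => TT_add hreg (hadd s t) (pt x v)
  lim := fun ι u t x v t0 x0 v0 ht hv => lim_flow hreg ht hv

lemma mkCoc_L (hreg : ContMDiff (𝓘(ℝ, E).prod 𝓘(ℝ, ℝ)) 𝓘(ℝ, E) 1
    (fun p : M × ℝ => φ p.2 p.1)) (h0 : φ 0 = id) (hadd : ∀ s t, φ (s + t) = φ s ∘ φ t)
    (hΛ : ∀ t, ∀ x ∈ Λ, φ t x ∈ Λ)
    (hF : ∀ t, ∀ x ∈ Λ, (F x).map (D φ t x).toLinearMap = F (φ t x)) (t : ℝ) (x : Λ) (v : F x) :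
    (((mkCoc hreg h0 hadd hΛ hF).L t x v : F (φ t x)) : TangentSpace 𝓘(ℝ, E) (φ t (x : M))) =
      D φ t (x : M) (v : TangentSpace 𝓘(ℝ, E) (x : M)) := rfl

end Pool.Agent.X214.AF
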