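import Pool.Agent.X214.AF.Ad
import Pool.Agent.X214.AF.Ext
import Pool.Agent.X214.AF.Flow

/-!
# Adapted metrics for sectional-hyperbolic sets
-/

set_option autoImplicit false

open scoped Manifold ContDiff Topology Bundle
open Set Filter Bundle

namespace Pool.Agent.X214.AF

open Pool.Agent.X214.AM (PD gram Fam tot IsSubbundle IsMean gram_mono gram_smul gram_nonneg)

variable {E : Type} [NormedAddCommGroup E] [NormedSpace ℝ E] [FiniteDimensional ℝ E]
  {M : Type} [TopologicalSpace M] [ChartedSpace E M] [IsManifold 𝓘(ℝ, E) ∞ M]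
  {φ : ℝ → M → M}

lemma inner_nonneg' (g : CRMetric E M) (x : M) (v : TangentSpace 𝓘(ℝ, E) x) :
    0 ≤ g.inner x v v := by
  by_cases h : v = 0
  · rw [h]; simp
  · exact (g.pos _ _ h).le

lemma len_nonneg (g : CRMetric E M) (x : M) (v : TangentSpace 𝓘(ℝ, E) x) : 0 ≤ len g x v :=
  Real.sqrt_nonneg _

lemma len_sq (g : CRMetric E M) (x : M) (v : TangentSpace 𝓘(ℝ, E) x) :
    len g x v ^ 2 = g.inner x v v := Real.sq_sqrt (inner_nonneg' g x v)

lemma area_nonneg (g : CRMetric E M) (x : M) (v : Fin 2 → TangentSpace 𝓘(ℝ, E) x) :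
    0 ≤ area g x v := Real.sqrt_nonneg _

lemma area_sq (g : CRMetric E M) (x : M) (v : Fin 2 → TangentSpace 𝓘(ℝ, E) x) :
    area g x v ^ 2 = (Matrix.of fun i j => g.inner x (v i) (v j)).det := by
  unfold area
  apply Real.sq_sqrt
  have h := gram_nonneg (A := resF Set.univ (fun x : M => ⊤) g ⟨x, mem_univ x⟩)
    (resF_pd g _) (fun i => ⟨v i, trivial⟩)
  exact h

lemma pd_nonneg {W : Type*} [AddCommGroup W] [Module ℝ W] {A : LinearMap.BilinForm ℝ W}
    (hA : PD A) (v : W) : 0 ≤ A v v := by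
  by_cases h : v = 0
  · rw [h]; simp
  · exact (hA.2 v h).le

variable [T2Space M] [CompactSpace M] {X : ∀ x : M, TangentSpace 𝓘(ℝ, E) x}
  {Λ : Set M} {G F : ∀ x : M, Submodule ℝ (TangentSpace 𝓘(ℝ, E) x)}

theorem adapted (hX : ContMDiff 𝓘(ℝ, E) 𝓘(ℝ, E).tangent 1
      (fun x => (⟨x, X x⟩ : TangentBundle 𝓘(ℝ, E) M))) (hφ : IsFlow X φ) (hΛ : IsCompact Λ)
    (hinv : ∀ t, ∀ x ∈ Λ, φ t x ∈ Λ) (g : CRMetric E M) {C a b : ℝ} (hC : 1 ≤ C) (hab : b < a)
    (h : SecHyp g φ Λ G F C a) : ∃ g' : CRMetric E M, SecHyp g' φ Λ G F 1 b := by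
  have hreg := hφ.reg hX
  have h0 : φ 0 = id := funext hφ.zero
  have hadd : ∀ s t, φ (s + t) = φ s ∘ φ t := hφ.add hX
  obtain ⟨r, hr⟩ := h.subG
  obtain ⟨r', hr2, hr'⟩ := h.subF
  have hGc : IsClosed (tot Λ G) := hr.closed
  have hFc : IsClosed (tot Λ F) := hr'.closed
  have hrG : ∀ x : Λ, Module.finrank ℝ (G x) = r := fun x => hr.rank x x.2
  have hrF : ∀ x : Λ, Module.finrank ℝ (F x) = r' := fun x => hr'.rank x x.2
  have hcompl : ∀ x : Λ, IsCompl (G x) (F x) := fun x => h.compl x x.2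
  have : CompactSpace Λ := isCompact_iff_compactSpace.1 hΛ
  set P : Coc Λ G (fun t x => (⟨φ t x, hinv t x x.2⟩ : Λ)) := mkCoc hreg h0 hadd hinv h.invG with hP
  set Q : Coc Λ F (fun t x => (⟨φ t x, hinv t x x.2⟩ : Λ)) := mkCoc hreg h0 hadd hinv h.invF with hQ
  set gG := resF Λ G g with hgG
  set gF := resF Λ F g with hgF
  have gGP : ∀ x, PD (gG x) := resF_pd g
  have gFP : ∀ x, PD (gF x) := resF_pd g
  have gGC : CtsF gG := resF_cts g
  have gFC : CtsF gF := resF_cts g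
  obtain ⟨K1, hK11, hK1⟩ := exists_bound P g hGc gGP gGC
  obtain ⟨K2, hK21, hK2⟩ := exists_bound Q g hFc gFP gFC
  obtain ⟨K, hKK, hKG, hKF⟩ : ∃ K : ℝ, 1 ≤ K ∧
      (∀ t ∈ Icc (-2 : ℝ) 2, ∀ (x : Λ) (v : G x), pul P t gG x v v ≤ K * gG x v v) ∧
      (∀ t ∈ Icc (-2 : ℝ) 2, ∀ (x : Λ) (v : F x), pul Q t gF x v v ≤ K * gF x v v) := by
    refine ⟨max K1 K2, hK11.trans (le_max_left _ _), fun t ht x v => ?_, fun t ht x v => ?_⟩
    · exact (hK1 t ht x v).trans (mul_le_mul_of_nonneg_right (le_max_left _ _)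
        (pd_nonneg (gGP x) v))
    · exact (hK2 t ht x v).trans (mul_le_mul_of_nonneg_right (le_max_right _ _)
        (pd_nonneg (gFP x) v))
  have hK0 : 0 < K := by linarith
  set A := avg P gGC with hA
  set B := avg Q gFC with hB
  have hAP : ∀ x, PD (A x) := avg_pd P gGP gGC hKK hKG
  have hBP : ∀ x, PD (B x) := avg_pd Q gFP gFC hKK hKF
  have hAC : CtsF A := avg_cts P gGP gGC
  have hBC : CtsF B := avg_cts Q gFP gFC
  have hAL : Lip P K A := avg_lip P gGP gGC hKK hKG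
  have hBL : Lip Q K B := avg_lip Q gFP gFC hKK hKF
  have a1 : ∀ (x : Λ) v, A x v v ≤ K * gG x v v := avg_le P gGC hKG
  have a2 : ∀ (x : Λ) v, gG x v v ≤ K * A x v v := le_avg P gGC hKG
  have b1 : ∀ (x : Λ) v, B x v v ≤ K * gF x v v := avg_le Q gFC hKF
  have b2 : ∀ (x : Λ) v, gF x v v ≤ K * B x v v := le_avg Q gFC hKF
  have gb1 : ∀ (x : Λ) (w : Fin 2 → F x), gram (B x) w ≤ K ^ 2 * gram (gF x) w := by
    intro x w
    rw [← gram_smul]
    exact gram_mono (hBP x) (smul_pd (gFP x) hK0).1 (fun v => by simpa using b1 x v) w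
  have gb2 : ∀ (x : Λ) (w : Fin 2 → F x), gram (gF x) w ≤ K ^ 2 * gram (B x) w := by
    intro x w
    rw [← gram_smul]
    exact gram_mono (gFP x) (smul_pd (hBP x) hK0).1 (fun v => by simpa using b2 x v) w
  -- the inequalities of the hypothesis, squared
  have hC0 : 0 < C := by linarith
  have s1 : ∀ t > 0, ∀ (x : Λ) (v : G x),
      pul P t gG x v v ≤ C ^ 2 * Real.exp (-(2 * a * t)) * gG x v v := by
    intro t ht x v
    have h1 := h.contr x x.2 t ht v v.2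
    have h2 := pow_le_pow_left₀ (len_nonneg _ _ _) h1 2
    rw [len_sq, mul_pow, mul_pow, len_sq, ← Real.exp_nat_mul] at h2
    have e : ((2 : ℕ) : ℝ) * -(a * t) = -(2 * a * t) := by push_cast; ring
    rw [e] at h2
    exact h2
  have s2 : ∀ t > 0, ∀ (x : Λ) (v : G x) (w : F x), pul P t gG x v v * gF x w w ≤
      C ^ 2 * Real.exp (-(2 * a * t)) * (gG x v v * pul Q t gF x w w) := by
    intro t ht x v w
    have h1 := h.dom x x.2 t ht v v.2 w w.2
    have h2 := pow_le_pow_left₀ (mul_nonneg (len_nonneg _ _ _) (len_nonneg _ _ _)) h1 2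
    rw [mul_pow, len_sq, len_sq, mul_pow, mul_pow, mul_pow, len_sq, len_sq,
      ← Real.exp_nat_mul] at h2
    have e : ((2 : ℕ) : ℝ) * -(a * t) = -(2 * a * t) := by push_cast; ring
    rw [e] at h2
    exact h2
  have s3 : ∀ t > 0, ∀ (x : Λ) (w : Fin 2 → F x),
      Real.exp (2 * a * t) * gram (gF x) w ≤ C ^ 2 * gram (pul Q t gF x) w := by
    intro t ht x w
    have h1 := h.sec x x.2 t ht (fun i => w i) fun i => (w i).2
    have h3 : 0 ≤ C⁻¹ * Real.exp (a * t) *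
        area g (x : M) (fun i => (w i : TangentSpace 𝓘(ℝ, E) (x : M))) :=
      mul_nonneg (by positivity) (area_nonneg _ _ _)
    have h2 := pow_le_pow_left₀ h3 h1 2
    rw [mul_pow, mul_pow, area_sq, area_sq, ← Real.exp_nat_mul] at h2
    have e : ((2 : ℕ) : ℝ) * (a * t) = 2 * a * t := by push_cast; ring
    rw [e] at h2
    have h4 : C⁻¹ ^ 2 * Real.exp (2 * a * t) * gram (gF x) w ≤ gram (pul Q t gF x) w := h2
    calc Real.exp (2 * a * t) * gram (gF x) w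
        = C ^ 2 * (C⁻¹ ^ 2 * Real.exp (2 * a * t) * gram (gF x) w) := by
          field_simp
      _ ≤ C ^ 2 * gram (pul Q t gF x) w := mul_le_mul_of_nonneg_left h4 (by positivity)
  -- a long time
  obtain ⟨T, hT0, hT⟩ : ∃ T : ℝ, 0 < T ∧ K ^ 4 * C ^ 2 ≤ Real.exp (2 * (a - b) * T) := by
    have h1 : Tendsto (fun T : ℝ => Real.exp (2 * (a - b) * T)) atTop atTop :=
      Real.tendsto_exp_atTop.comp (Tendsto.const_mul_atTop (by linarith) tendsto_id)
    obtain ⟨T, hT1, hT2⟩ := ((h1.eventually_ge_atTop (K ^ 4 * C ^ 2)).and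
      (eventually_gt_atTop 0)).exists
    exact ⟨T, hT2, hT1⟩
  have e1 : Real.exp (-(2 * a * T)) * Real.exp (2 * (a - b) * T) = Real.exp (-(2 * b * T)) := by
    rw [← Real.exp_add]
    congr 1
    ring
  have e2 : Real.exp (2 * b * T) * Real.exp (2 * (a - b) * T) = Real.exp (2 * a * T) := by
    rw [← Real.exp_add]
    congr 1
    ring
  have hK2 : K ^ 2 ≤ K ^ 4 := pow_le_pow_right₀ hKK (by norm_num)
  have q1 : K ^ 4 * (C ^ 2 * Real.exp (-(2 * a * T))) ≤ Real.exp (-(2 * b * T)) := by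
    rw [← e1]
    calc K ^ 4 * (C ^ 2 * Real.exp (-(2 * a * T))) = Real.exp (-(2 * a * T)) * (K ^ 4 * C ^ 2) := by
          ring
      _ ≤ _ := mul_le_mul_of_nonneg_left hT (Real.exp_pos _).le
  have hAd : Ad P Q b T A B := by
    refine ⟨fun x v => ?_, fun x w => ?_, fun x v w => ?_⟩
    · have n1 : 0 ≤ A x v v := pd_nonneg (hAP x) v
      calc pul P T A x v v ≤ K * pul P T gG x v v := a1 _ _
        _ ≤ K * (C ^ 2 * Real.exp (-(2 * a * T)) * gG x v v) :=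
            mul_le_mul_of_nonneg_left (s1 T hT0 x v) hK0.le
        _ ≤ K * (C ^ 2 * Real.exp (-(2 * a * T)) * (K * A x v v)) := by
            gcongr
            exact a2 x v
        _ = K ^ 2 * (C ^ 2 * Real.exp (-(2 * a * T))) * A x v v := by ring
        _ ≤ K ^ 4 * (C ^ 2 * Real.exp (-(2 * a * T))) * A x v v := by gcongr
        _ ≤ Real.exp (-(2 * b * T)) * A x v v := mul_le_mul_of_nonneg_right q1 n1
    · have n1 : 0 ≤ gram (B x) w := gram_nonneg (hBP x) w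
      have n2 : 0 ≤ gram (pul Q T B x) w := gram_nonneg (pul_pd Q hBP T x) w
      have t1 : gram (pul Q T gF x) w ≤ K ^ 2 * gram (pul Q T B x) w :=
        gb2 _ fun i => Q.L T x (w i)
      have t2 : Real.exp (2 * a * T) * gram (B x) w ≤ K ^ 4 * C ^ 2 * gram (pul Q T B x) w := by
        calc Real.exp (2 * a * T) * gram (B x) w
            ≤ Real.exp (2 * a * T) * (K ^ 2 * gram (gF x) w) := by
              gcongr
              exact gb1 x w
          _ = K ^ 2 * (Real.exp (2 * a * T) * gram (gF x) w) := by ring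
          _ ≤ K ^ 2 * (C ^ 2 * gram (pul Q T gF x) w) :=
              mul_le_mul_of_nonneg_left (s3 T hT0 x w) (by positivity)
          _ ≤ K ^ 2 * (C ^ 2 * (K ^ 2 * gram (pul Q T B x) w)) := by gcongr
          _ = _ := by ring
      have t3 : Real.exp (2 * (a - b) * T) * (Real.exp (2 * b * T) * gram (B x) w) ≤
          Real.exp (2 * (a - b) * T) * gram (pul Q T B x) w := by
        calc _ = (Real.exp (2 * b * T) * Real.exp (2 * (a - b) * T)) * gram (B x) w := by ring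
          _ = Real.exp (2 * a * T) * gram (B x) w := by rw [e2]
          _ ≤ K ^ 4 * C ^ 2 * gram (pul Q T B x) w := t2
          _ ≤ _ := mul_le_mul_of_nonneg_right hT n2
      exact le_of_mul_le_mul_left t3 (Real.exp_pos _)
    · have n1 : 0 ≤ A x v v := pd_nonneg (hAP x) v
      have n2 : 0 ≤ B x w w := pd_nonneg (hBP x) w
      have n3 : 0 ≤ pul P T A x v v := pd_nonneg (pul_pd P hAP T x) v
      have n4 : 0 ≤ pul Q T B x w w := pd_nonneg (pul_pd Q hBP T x) w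
      have n5 : 0 ≤ pul P T gG x v v := pd_nonneg (pul_pd P gGP T x) v
      have n6 : 0 ≤ pul Q T gF x w w := pd_nonneg (pul_pd Q gFP T x) w
      have n7 : 0 ≤ gG x v v := pd_nonneg (gGP x) v
      have n8 : 0 ≤ gF x w w := pd_nonneg (gFP x) w
      have t1 : pul P T A x v v ≤ K * pul P T gG x v v := a1 _ _
      have t2 : pul Q T gF x w w ≤ K * pul Q T B x w w := b2 _ _
      calc pul P T A x v v * B x w w ≤ (K * pul P T gG x v v) * (K * gF x w w) :=
            mul_le_mul t1 (b1 x w) n2 (by positivity)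
        _ = K ^ 2 * (pul P T gG x v v * gF x w w) := by ring
        _ ≤ K ^ 2 * (C ^ 2 * Real.exp (-(2 * a * T)) * (gG x v v * pul Q T gF x w w)) :=
            mul_le_mul_of_nonneg_left (s2 T hT0 x v w) (by positivity)
        _ ≤ K ^ 2 * (C ^ 2 * Real.exp (-(2 * a * T)) * ((K * A x v v) * (K * pul Q T B x w w))) := by
            gcongr
            exact a2 x v
        _ = K ^ 4 * (C ^ 2 * Real.exp (-(2 * a * T))) * (A x v v * pul Q T B x w w) := by ring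
        _ ≤ Real.exp (-(2 * b * T)) * (A x v v * pul Q T B x w w) :=
            mul_le_mul_of_nonneg_right q1 (mul_nonneg n1 n4)
        _ = _ := by ring
  obtain ⟨A', B', hA'P, hB'P, hA'C, hB'C, hfin⟩ := exists_adapted g hGc hFc hrG hrF hAP hBP hAC hBC
    hAL hBL hT0 hAd
  obtain ⟨g', hg'⟩ := exists_ext g hΛ.isClosed hGc hFc hcompl hA'P hB'P hA'C hB'C
  have vG : ∀ (x : Λ) (v w : G x), g'.inner (x : M) v w = A' x v w := by
    intro x v w
    rw [hg', dsum_apply, pr_left, pr_left, pr_right (fun x => (hcompl x).symm),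
      pr_right (fun x => (hcompl x).symm)]
    simp
  have vF : ∀ (x : Λ) (v w : F x), g'.inner (x : M) v w = B' x v w := by
    intro x v w
    rw [hg', dsum_apply, pr_right, pr_right, pr_left (fun x => (hcompl x).symm),
      pr_left (fun x => (hcompl x).symm)]
    simp
  refine ⟨g', h.subG, h.subF, h.compl, h.invG, h.invF, ?_, ?_, ?_⟩
  · intro x hx t ht v hv w hw
    have h1 := (hfin t ht.le).2.2 ⟨x, hx⟩ ⟨v, hv⟩ ⟨w, hw⟩
    have v1 := vG ⟨x, hx⟩ ⟨v, hv⟩ ⟨v, hv⟩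
    have v2 := vF ⟨x, hx⟩ ⟨w, hw⟩ ⟨w, hw⟩
    have v3 : g'.inner (φ t x) (D φ t x v) (D φ t x v) =
        pul P t A' ⟨x, hx⟩ ⟨v, hv⟩ ⟨v, hv⟩ :=
      vG ⟨φ t x, hinv t x hx⟩ (P.L t ⟨x, hx⟩ ⟨v, hv⟩) (P.L t ⟨x, hx⟩ ⟨v, hv⟩)
    have v4 : g'.inner (φ t x) (D φ t x w) (D φ t x w) =
        pul Q t B' ⟨x, hx⟩ ⟨w, hw⟩ ⟨w, hw⟩ :=
      vF ⟨φ t x, hinv t x hx⟩ (Q.L t ⟨x, hx⟩ ⟨w, hw⟩) (Q.L t ⟨x, hx⟩ ⟨w, hw⟩)
    rw [← v1, ← v2, ← v3, ← v4] at h1
    rw [one_mul]
    refine le_of_sq_le_sq ?_ (mul_nonneg (Real.exp_pos _).le (mul_nonneg (len_nonneg _ _ _)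
      (len_nonneg _ _ _)))
    rw [mul_pow, mul_pow, mul_pow, len_sq, len_sq, len_sq, len_sq, ← Real.exp_nat_mul]
    have e : ((2 : ℕ) : ℝ) * -(b * t) = -(2 * b * t) := by push_cast; ring
    rw [e, ← mul_assoc]
    exact h1
  · intro x hx t ht v hv
    have h1 := (hfin t ht.le).1 ⟨x, hx⟩ ⟨v, hv⟩
    have v1 := vG ⟨x, hx⟩ ⟨v, hv⟩ ⟨v, hv⟩
    have v3 : g'.inner (φ t x) (D φ t x v) (D φ t x v) =
        pul P t A' ⟨x, hx⟩ ⟨v, hv⟩ ⟨v, hv⟩ :=
      vG ⟨φ t x, hinv t x hx⟩ (P.L t ⟨x, hx⟩ ⟨v, hv⟩) (P.L t ⟨x, hx⟩ ⟨v, hv⟩)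
    rw [← v1, ← v3] at h1
    rw [one_mul]
    refine le_of_sq_le_sq ?_ (mul_nonneg (Real.exp_pos _).le (len_nonneg _ _ _))
    rw [mul_pow, len_sq, len_sq, ← Real.exp_nat_mul]
    have e : ((2 : ℕ) : ℝ) * -(b * t) = -(2 * b * t) := by push_cast; ring
    rw [e]
    exact h1
  · intro x hx t ht w hw
    have h1 := (hfin t ht.le).2.1 ⟨x, hx⟩ fun i => ⟨w i, hw i⟩
    have v1 : gram (B' ⟨x, hx⟩) (fun i => ⟨w i, hw i⟩) =
        (Matrix.of fun i j => g'.inner x (w i) (w j)).det := by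
      unfold gram
      congr 1
      ext i j
      exact (vF ⟨x, hx⟩ ⟨w i, hw i⟩ ⟨w j, hw j⟩).symm
    have v2 : gram (pul Q t B' ⟨x, hx⟩) (fun i => ⟨w i, hw i⟩) =
        (Matrix.of fun i j => g'.inner (φ t x) (D φ t x (w i)) (D φ t x (w j))).det := by
      unfold gram
      congr 1
      ext i j
      exact (vF ⟨φ t x, hinv t x hx⟩ (Q.L t ⟨x, hx⟩ ⟨w i, hw i⟩) (Q.L t ⟨x, hx⟩ ⟨w j, hw j⟩)).symm
    rw [v1, v2, ← area_sq, ← area_sq] at h1
    rw [inv_one, one_mul]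
    refine le_of_sq_le_sq ?_ (area_nonneg _ _ _)
    rw [mul_pow, ← Real.exp_nat_mul]
    have e : ((2 : ℕ) : ℝ) * (b * t) = 2 * b * t := by push_cast; ring
    rw [e]
    exact h1

end Pool.Agent.X214.AF
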