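import Pool.Agent.X214.AF.Coc

/-!
# Infinite halving
-/

set_option autoImplicit false

open scoped Manifold ContDiff Topology Bundle
open Set Filter Bundle

namespace Pool.Agent.X214.AF

open Pool.Agent.X214.AM

section Mean

variable {W : Type*} [AddCommGroup W] [Module ℝ W]

open Classical in
/-- A choice of the mean. -/
noncomputable def mn (r : ℕ) (A B : LinearMap.BilinForm ℝ W) : LinearMap.BilinForm ℝ W :=
  if h : ∃ X, IsMean r A B X then h.choose else A

lemma mn_spec [FiniteDimensional ℝ W] {r : ℕ} (hr : Module.finrank ℝ W = r)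
    {A B : LinearMap.BilinForm ℝ W} (hA : PD A) (hB : PD B) : IsMean r A B (mn r A B) := by
  have h := exists_mean hr hA hB
  unfold mn
  rw [dif_pos h]
  exact h.choose_spec

end Mean

variable {E : Type} [NormedAddCommGroup E] [NormedSpace ℝ E] [FiniteDimensional ℝ E]
  {M : Type} [TopologicalSpace M] [ChartedSpace E M] [IsManifold 𝓘(ℝ, E) ∞ M]
  {Λ : Set M} {F : ∀ x : M, Submodule ℝ (TangentSpace 𝓘(ℝ, E) x)} {σ : ℝ → Λ → Λ}
  (φ : Coc Λ F σ)

/-- The sequence of means. -/
noncomputable def sq (r : ℕ) (T : ℝ) (A : Fam Λ F) : ℕ → Fam Λ F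
  | 0 => A
  | j + 1 => fun x => mn r (sq r T A j x) (pul φ (T / 2 ^ (j + 1)) (sq r T A j) x)

lemma pul_mean {r : ℕ} {A B X : Fam Λ F} (h : ∀ x, IsMean r (A x) (B x) (X x)) (s : ℝ) (x : Λ) :
    IsMean r (pul φ s A x) (pul φ s B x) (pul φ s X x) := (h (σ s x)).comap (φ.L s x)

lemma lip_mean {r : ℕ} (hr : ∀ x : Λ, Module.finrank ℝ (F x) = r) {K : ℝ} {A X : Fam Λ F}
    (hP : ∀ x, PD (A x)) (hL : Lip φ K A) {u : ℝ}
    (hX : ∀ x, IsMean r (A x) (pul φ u A x) (X x)) : Lip φ K X := by
  intro s hs x v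
  have hc : 0 < Real.exp (K * s) := Real.exp_pos _
  have h1 : IsMean r (pul φ s A x) (pul φ s (pul φ u A) x) (pul φ s X x) := pul_mean φ hX s x
  have e1 : pul φ s (pul φ u A) = pul φ u (pul φ s A) := by
    rw [← pul_add, ← pul_add, add_comm]
  have h2 := mean_smul (hX x) hc
  have h3 := mean_smul h1 hc
  constructor
  · have := mean_mono (hr x) h1 h2 (smul_pd (pul_pd φ hP u x) hc)
      (fun v => by simpa using (hL s hs x v).1)
      (fun v => by
        rw [e1]
        simp only [LinearMap.smul_apply, smul_eq_mul]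
        exact (hL s hs (σ u x) (φ.L u x v)).1) v
    simpa using this
  · have := mean_mono (hr x) (hX x) h3 (smul_pd (pul_pd φ (pul_pd φ hP u) s x) hc)
      (fun v => by simpa using (hL s hs x v).2)
      (fun v => by
        rw [e1]
        simp only [LinearMap.smul_apply, smul_eq_mul]
        exact (hL s hs (σ u x) (φ.L u x v)).2) v
    simpa using this

variable (g : CMetric E M)

include g in
/-- **The limit of the means.** -/
theorem exists_limit {r : ℕ} (hF : IsClosed (tot Λ F))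
    (hr : ∀ x : Λ, Module.finrank ℝ (F x) = r) {A : Fam Λ F}
    (hP : ∀ x, PD (A x)) (hC : CtsF A) {K : ℝ} (hL : Lip φ K A) {T : ℝ} (hT : 0 < T) :
    ∃ (S : ℕ → Fam Λ F) (H : Fam Λ F), S 0 = A ∧
      (∀ j x, IsMean r (S j x) (pul φ (T / 2 ^ (j + 1)) (S j) x) (S (j + 1) x)) ∧
      (∀ j x, PD (S j x)) ∧ (∀ x, PD (H x)) ∧ CtsF H ∧
      ∀ x v w, Tendsto (fun j => S j x v w) atTop (𝓝 (H x v w)) := by
  set S : ℕ → Fam Λ F := sq φ r T A with hS
  have hSP : ∀ j x, PD (S j x) := by
    intro j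
    induction j with
    | zero => exact hP
    | succ j ih =>
      intro x
      exact (mn_spec (hr x) (ih x) (pul_pd φ ih _ x)).pd
  have hSM : ∀ j x, IsMean r (S j x) (pul φ (T / 2 ^ (j + 1)) (S j) x) (S (j + 1) x) := fun j x =>
    mn_spec (hr x) (hSP j x) (pul_pd φ (hSP j) _ x)
  have hSC : ∀ j, CtsF (S j) := by
    intro j
    induction j with
    | zero => exact hC
    | succ j ih => exact cts_mean g hF hr (hSP j) (pul_pd φ (hSP j) _) ih (pul_cts φ ih _) (hSM j)
  have hSL : ∀ j, Lip φ K (S j) := by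
    intro j
    induction j with
    | zero => exact hL
    | succ j ih => exact lip_mean φ hr (hSP j) ih (hSM j)
  set c : ℕ → ℝ := fun j => Real.exp (K * (T / 2 ^ j) / 2) with hc
  have hc0 : ∀ j, 0 < c j := fun j => Real.exp_pos _
  have hcc : ∀ j, c j = c (j + 1) ^ 2 := by
    intro j
    simp only [hc]
    rw [← Real.exp_nat_mul]
    congr 1
    push_cast
    rw [pow_succ]
    field_simp
  have hcE : ∀ j, Real.exp (K * (T / 2 ^ (j + 1))) = c (j + 1) ^ 2 := by
    intro j
    simp only [hc]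
    rw [← Real.exp_nat_mul]
    congr 1
    push_cast
    ring
  have hclim : Tendsto c atTop (𝓝 1) := by
    have h1 : Tendsto (fun j : ℕ => K * (T / 2 ^ j) / 2) atTop (𝓝 (K * (T * 0) / 2)) := by
      have h2 : Tendsto (fun j : ℕ => ((1 : ℝ) / 2) ^ j) atTop (𝓝 0) :=
        tendsto_pow_atTop_nhds_zero_of_lt_one (by norm_num) (by norm_num)
      have h3 : (fun j : ℕ => K * (T / 2 ^ j) / 2) = fun j : ℕ => K * (T * (1 / 2) ^ j) / 2 := by
        funext j
        rw [one_div, inv_pow]
        rfl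
      rw [h3]
      exact ((h2.const_mul T).const_mul K).div_const 2
    have h4 := (Real.continuous_exp.tendsto _).comp h1
    simp only [mul_zero, zero_div, Real.exp_zero] at h4
    exact h4
  have hnear : ∀ j x v, S (j + 1) x v v ≤ c (j + 1) * S j x v v ∧
      S j x v v ≤ c (j + 1) * S (j + 1) x v v := by
    intro j x v
    have hst : 0 ≤ T / 2 ^ (j + 1) := by positivity
    refine mean_near (hSM j x) (hc0 _) (fun v => ?_) (fun v => ?_) v
    · rw [← hcE]
      exact (hSL j _ hst x v).1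
    · rw [← hcE]
      exact (hSL j _ hst x v).2
  have hSnn : ∀ j x v, 0 ≤ S j x v v := by
    intro j x v
    by_cases hv : v = 0
    · rw [hv]; simp
    · exact ((hSP j x).2 v hv).le
  have hU : ∀ x v, Antitone fun j => c j * S j x v v := by
    intro x v
    refine antitone_nat_of_succ_le fun j => ?_
    have h1 := (hnear j x v).1
    have h2 := hc0 (j + 1)
    calc c (j + 1) * S (j + 1) x v v ≤ c (j + 1) * (c (j + 1) * S j x v v) :=
          mul_le_mul_of_nonneg_left h1 h2.le
      _ = c (j + 1) ^ 2 * S j x v v := by ring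
      _ = c j * S j x v v := by rw [← hcc]
  have hV : ∀ x v, Monotone fun j => (c j)⁻¹ * S j x v v := by
    intro x v
    refine monotone_nat_of_le_succ fun j => ?_
    have h1 := (hnear j x v).2
    have h2 := hc0 (j + 1)
    calc (c j)⁻¹ * S j x v v ≤ (c j)⁻¹ * (c (j + 1) * S (j + 1) x v v) :=
          mul_le_mul_of_nonneg_left h1 (inv_pos.2 (hc0 j)).le
      _ = (c (j + 1))⁻¹ * S (j + 1) x v v := by
        rw [hcc j]
        field_simp
  have hlim2 : ∀ x v, ∃ l, Tendsto (fun j => S j x v v) atTop (𝓝 l) ∧ (∀ j, l ≤ c j * S j x v v) ∧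
      ∀ j, (c j)⁻¹ * S j x v v ≤ l := by
    intro x v
    have hbdd : BddBelow (range fun j => c j * S j x v v) := ⟨0, by
      rintro _ ⟨j, rfl⟩
      exact mul_nonneg (hc0 j).le (hSnn j x v)⟩
    have h1 := tendsto_atTop_ciInf (hU x v) hbdd
    set l := ⨅ j, c j * S j x v v with hl
    have h2 : Tendsto (fun j => S j x v v) atTop (𝓝 l) := by
      have h3 := (hclim.inv₀ one_ne_zero).mul h1
      rw [inv_one, one_mul] at h3
      refine h3.congr fun j => ?_
      have := (hc0 j).ne'
      field_simp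
    refine ⟨l, h2, fun j => ciInf_le hbdd j, fun j => ?_⟩
    have h3 := (hclim.inv₀ one_ne_zero).mul h2
    rw [inv_one, one_mul] at h3
    exact (hV x v).ge_of_tendsto h3 j
  have hex : ∀ x v w, ∃ l, Tendsto (fun j => S j x v w) atTop (𝓝 l) := by
    intro x v w
    obtain ⟨l1, h1, -⟩ := hlim2 x (v + w)
    obtain ⟨l2, h2, -⟩ := hlim2 x v
    obtain ⟨l3, h3, -⟩ := hlim2 x w
    refine ⟨(l1 - l2 - l3) / 2, (((h1.sub h2).sub h3).div_const 2).congr fun j => ?_⟩
    simp only [map_add, LinearMap.add_apply]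
    rw [(hSP j x).1 w v]
    ring
  choose l hl using hex
  let H : Fam Λ F := fun x => LinearMap.mk₂ ℝ (l x)
    (fun u v w => tendsto_nhds_unique (hl x (u + v) w) (((hl x u w).add (hl x v w)).congr fun j => by
      simp))
    (fun c v w => tendsto_nhds_unique (hl x (c • v) w) (((hl x v w).const_mul c).congr fun j => by
      simp))
    (fun u v w => tendsto_nhds_unique (hl x u (v + w)) (((hl x u v).add (hl x u w)).congr fun j => by
      simp))
    (fun c v w => tendsto_nhds_unique (hl x v (c • w)) (((hl x v w).const_mul c).congr fun j => by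
      simp))
  have hH : ∀ x v w, Tendsto (fun j => S j x v w) atTop (𝓝 (H x v w)) := hl
  have hHU : ∀ j x v, H x v v ≤ c j * S j x v v := by
    intro j x v
    obtain ⟨l', h1, h2, -⟩ := hlim2 x v
    rw [tendsto_nhds_unique (hH x v v) h1]
    exact h2 j
  have hHV : ∀ j x v, (c j)⁻¹ * S j x v v ≤ H x v v := by
    intro j x v
    obtain ⟨l', h1, -, h2⟩ := hlim2 x v
    rw [tendsto_nhds_unique (hH x v v) h1]
    exact h2 j
  have hHP : ∀ x, PD (H x) := by
    intro x
    refine ⟨fun v w => ?_, fun v hv => ?_⟩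
    · refine tendsto_nhds_unique (hH x v w) ((hH x w v).congr fun j => ?_)
      exact (hSP j x).1 w v
    · exact lt_of_lt_of_le (mul_pos (inv_pos.2 (hc0 0)) ((hSP 0 x).2 v hv)) (hHV 0 x v)
  refine ⟨S, H, rfl, hSM, hSP, hHP, cts_of_sq (fun x => (hHP x).1) ?_, hH⟩
  intro ι u x v x0 v0 hv
  refine tendsto_order.2 ⟨fun a ha => ?_, fun a ha => ?_⟩
  · have h1 : Tendsto (fun j => (c j)⁻¹ * S j x0 v0 v0) atTop (𝓝 (H x0 v0 v0)) := by
      have := (hclim.inv₀ one_ne_zero).mul (hH x0 v0 v0)
      rwa [inv_one, one_mul] at this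
    obtain ⟨j, hj⟩ := (h1.eventually (lt_mem_nhds ha)).exists
    have h2 := ((hSC j) ι u x v v x0 v0 v0 hv hv).const_mul (c j)⁻¹
    filter_upwards [h2.eventually (lt_mem_nhds hj)] with i hi
    exact lt_of_lt_of_le hi (hHV j _ _)
  · have h1 : Tendsto (fun j => c j * S j x0 v0 v0) atTop (𝓝 (H x0 v0 v0)) := by
      have := hclim.mul (hH x0 v0 v0)
      rwa [one_mul] at this
    obtain ⟨j, hj⟩ := (h1.eventually (gt_mem_nhds ha)).exists
    have h2 := ((hSC j) ι u x v v x0 v0 v0 hv hv).const_mul (c j)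
    filter_upwards [h2.eventually (gt_mem_nhds hj)] with i hi
    exact lt_of_le_of_lt (hHU j _ _) hi

end Pool.Agent.X214.AF
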